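import Mathlib
import Pool.Agent.Helper49.CDC.Final

namespace Pool.Agent.Helper50.Outer

open Finset Pool.Agent.Helper49.CDC
open scoped Classical

variable {V E : Type*}

/-- the edges with one end in `S` and one end outside `S` -/
noncomputable def cut [Fintype E] (ends : E → Sym2 V) (S : Set V) : Finset E :=
  univ.filter (fun e => (∃ v ∈ ends e, v ∈ S) ∧ ∃ v ∈ ends e, v ∉ S)

/-- the edges with both ends in `S` -/
noncomputable def insd [Fintype E] (ends : E → Sym2 V) (S : Set V) : Finset E :=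
  univ.filter (fun e => ∀ v ∈ ends e, v ∈ S)

/-- the edges at `v` -/
noncomputable def dl [Fintype E] (ends : E → Sym2 V) (v : V) : Finset E :=
  univ.filter (fun e => v ∈ ends e)

/-- cubic graphs (isolated vertices are allowed) without bridges and loops -/
structure Good [Fintype E] (ends : E → Sym2 V) : Prop where
  loopless : ∀ e, ¬ (ends e).IsDiag
  deg : ∀ v, (dl ends v).card = 0 ∨ (dl ends v).card = 3
  bridge : ∀ S : Set V, (cut ends S).card ≠ 1

/-- vectors of weight two -/
def Wt2 {ι : Type*} (x : ι → ZMod 2) : Prop :=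
  ∃ a b, a ≠ b ∧ ∀ i, x i = if i = a ∨ i = b then 1 else 0

/-- a double cover by even sets indexed by `ι`, at the vertices of `Q` -/
structure Lab [Fintype E] {ι : Type*} (ends : E → Sym2 V) (Q : Set V) (lab : E → ι → ZMod 2) :
    Prop where
  bd0 : ∀ v ∈ Q, bd ends lab v = 0
  wt : ∀ e, ∀ v ∈ ends e, v ∈ Q → Wt2 (lab e)

theorem ends_rep (ends : E → Sym2 V) (e : E) : ∃ a b, ends e = s(a, b) := by
  generalize ends e = p
  induction p with
  | _ a b => exact ⟨a, b, rfl⟩

theorem mem_cut [Fintype E] {ends : E → Sym2 V} {S : Set V} {e : E} :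
    e ∈ cut ends S ↔ (∃ v ∈ ends e, v ∈ S) ∧ ∃ v ∈ ends e, v ∉ S := by
  simp [cut]

theorem mem_cut_of [Fintype E] {ends : E → Sym2 V} {S : Set V} {e : E} {a b : V}
    (h : ends e = s(a, b)) : e ∈ cut ends S ↔ ¬ (a ∈ S ↔ b ∈ S) := by
  rw [mem_cut, h]
  simp only [Sym2.mem_iff]
  constructor
  · rintro ⟨⟨v, rfl | rfl, h1⟩, ⟨w, rfl | rfl, h2⟩⟩ <;> tauto
  · intro h
    by_cases ha : a ∈ S
    · have hb : b ∉ S := by tauto
      exact ⟨⟨a, Or.inl rfl, ha⟩, ⟨b, Or.inr rfl, hb⟩⟩
    · have hb : b ∈ S := by tauto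
      exact ⟨⟨b, Or.inr rfl, hb⟩, ⟨a, Or.inl rfl, ha⟩⟩

theorem mem_insd [Fintype E] {ends : E → Sym2 V} {S : Set V} {e : E} :
    e ∈ insd ends S ↔ ∀ v ∈ ends e, v ∈ S := by simp [insd]

theorem mem_insd_of [Fintype E] {ends : E → Sym2 V} {S : Set V} {e : E} {a b : V}
    (h : ends e = s(a, b)) : e ∈ insd ends S ↔ a ∈ S ∧ b ∈ S := by
  rw [mem_insd, h]
  simp [Sym2.mem_iff]

theorem mem_dl [Fintype E] {ends : E → Sym2 V} {v : V} {e : E} :
    e ∈ dl ends v ↔ v ∈ ends e := by simp [dl]

theorem bd_dl [Fintype E] {M : Type*} [AddCommMonoid M] (ends : E → Sym2 V) (F : E → M) (v : V) :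
    bd ends F v = ∑ e ∈ dl ends v, F e := rfl

theorem cut_compl [Fintype E] (ends : E → Sym2 V) (S : Set V) : cut ends Sᶜ = cut ends S := by
  ext e
  obtain ⟨a, b, h⟩ := ends_rep ends e
  rw [mem_cut_of h, mem_cut_of h]
  simp only [Set.mem_compl_iff]
  tauto

theorem cut_singleton [Fintype E] {ends : E → Sym2 V} (hl : ∀ e, ¬ (ends e).IsDiag) (v : V) :
    cut ends {v} = dl ends v := by
  ext e
  obtain ⟨a, b, h⟩ := ends_rep ends e
  have := hl e
  rw [h] at this
  rw [mem_cut_of h, mem_dl, h, Sym2.mem_iff]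
  simp only [Set.mem_singleton_iff]
  have hab : a ≠ b := by simpa using this
  constructor
  · intro h
    by_cases h1 : a = v
    · exact Or.inl h1.symm
    · right
      by_contra h2
      exact h ⟨fun h => absurd h h1, fun h => absurd h.symm h2⟩
  · rintro (rfl | rfl)
    · intro h
      exact hab (h.1 rfl).symm
    · intro h
      exact hab (h.2 rfl)

/-- the sum of the boundaries over `S` -/
theorem sum_bd_cut [Fintype V] [Fintype E] {M : Type*} [AddCommMonoid M] (h2 : ∀ x : M, x + x = 0)
    {ends : E → Sym2 V} (hl : ∀ e, ¬ (ends e).IsDiag) (F : E → M) (S : Set V) :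
    ∑ v ∈ univ.filter (fun v => v ∈ S), bd ends F v = ∑ e ∈ cut ends S, F e := by
  unfold bd cut
  simp only [Finset.sum_filter]
  have h1 : ∑ v : V, (if v ∈ S then ∑ e : E, (if v ∈ ends e then F e else 0) else 0) =
      ∑ e : E, ∑ v : V, if v ∈ S ∧ v ∈ ends e then F e else 0 := by
    rw [Finset.sum_comm]
    apply Finset.sum_congr rfl
    intro v _
    by_cases hv : v ∈ S
    · simp [hv]
    · simp [hv]
  rw [h1]
  apply Finset.sum_congr rfl
  intro e _
  obtain ⟨a, b, h⟩ := ends_rep ends e
  have hab : a ≠ b := by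
    have := hl e
    rw [h] at this
    simpa using this
  rw [← Finset.sum_filter]
  have h3 : (univ.filter (fun v => v ∈ S ∧ v ∈ ends e)) = ({a, b} : Finset V).filter (· ∈ S) := by
    ext v
    rw [h]
    simp only [Finset.mem_filter, Finset.mem_univ, true_and, Sym2.mem_iff, Finset.mem_insert,
      Finset.mem_singleton]
    tauto
  rw [h3, h]
  simp only [Sym2.mem_iff]
  by_cases ha : a ∈ S <;> by_cases hb : b ∈ S
  · have : ({a, b} : Finset V).filter (· ∈ S) = {a, b} := by
      ext v; simp only [Finset.mem_filter, Finset.mem_insert, Finset.mem_singleton]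
      constructor
      · exact fun h => h.1
      · rintro (rfl | rfl) <;> simp [ha, hb]
    rw [this, Finset.sum_pair hab, h2, if_neg]
    rintro ⟨_, v, rfl | rfl, h5⟩ <;> tauto
  · have : ({a, b} : Finset V).filter (· ∈ S) = {a} := by
      ext v; simp only [Finset.mem_filter, Finset.mem_insert, Finset.mem_singleton]
      constructor
      · rintro ⟨rfl | rfl, h6⟩
        · rfl
        · exact absurd h6 hb
      · rintro rfl; simp [ha]
    rw [this, Finset.sum_singleton, if_pos]
    exact ⟨⟨a, Or.inl rfl, ha⟩, ⟨b, Or.inr rfl, hb⟩⟩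
  · have : ({a, b} : Finset V).filter (· ∈ S) = {b} := by
      ext v; simp only [Finset.mem_filter, Finset.mem_insert, Finset.mem_singleton]
      constructor
      · rintro ⟨rfl | rfl, h6⟩
        · exact absurd h6 ha
        · rfl
      · rintro rfl; simp [hb]
    rw [this, Finset.sum_singleton, if_pos]
    exact ⟨⟨b, Or.inr rfl, hb⟩, ⟨a, Or.inl rfl, ha⟩⟩
  · have : ({a, b} : Finset V).filter (· ∈ S) = ∅ := by
      ext v; simp only [Finset.mem_filter, Finset.mem_insert, Finset.mem_singleton]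
      constructor
      · rintro ⟨rfl | rfl, h6⟩
        · exact absurd h6 ha
        · exact absurd h6 hb
      · intro h6; simp at h6
    rw [this, Finset.sum_empty, if_neg]
    rintro ⟨⟨v, rfl | rfl, h5⟩, _⟩ <;> tauto

/-- handshake -/
theorem handshake [Fintype V] [Fintype E] {ends : E → Sym2 V} (hl : ∀ e, ¬ (ends e).IsDiag)
    (S : Set V) :
    ∑ v ∈ univ.filter (fun v => v ∈ S), (dl ends v).card =
      2 * (insd ends S).card + (cut ends S).card := by
  have h0 : ∀ v, (dl ends v).card = ∑ e : E, if v ∈ ends e then 1 else 0 := by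
    intro v
    unfold dl
    rw [Finset.card_eq_sum_ones, Finset.sum_filter]
  simp only [h0]
  unfold insd cut
  rw [Finset.card_eq_sum_ones, Finset.card_eq_sum_ones]
  simp only [Finset.sum_filter, Finset.mul_sum]
  rw [← Finset.sum_add_distrib]
  have h1 : ∑ v : V, (if v ∈ S then ∑ e : E, (if v ∈ ends e then 1 else 0) else 0) =
      ∑ e : E, ∑ v : V, if v ∈ S ∧ v ∈ ends e then 1 else 0 := by
    rw [Finset.sum_comm]
    apply Finset.sum_congr rfl
    intro v _
    by_cases hv : v ∈ S
    · simp [hv]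
    · simp [hv]
  rw [h1]
  apply Finset.sum_congr rfl
  intro e _
  obtain ⟨a, b, h⟩ := ends_rep ends e
  have hab : a ≠ b := by
    have := hl e
    rw [h] at this
    simpa using this
  rw [← Finset.sum_filter, ← Finset.card_eq_sum_ones]
  have h3 : (univ.filter (fun v => v ∈ S ∧ v ∈ ends e)) = ({a, b} : Finset V).filter (· ∈ S) := by
    ext v
    rw [h]
    simp only [Finset.mem_filter, Finset.mem_univ, true_and, Sym2.mem_iff, Finset.mem_insert,
      Finset.mem_singleton]
    tauto
  rw [h3, h]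
  simp only [Sym2.mem_iff]
  rw [Finset.filter_insert, Finset.filter_singleton]
  by_cases ha : a ∈ S <;> by_cases hb : b ∈ S
  · simp [ha, hb, hab]
  · simp [ha, hb]
  · simp [ha, hb]
  · simp [ha, hb]

end Pool.Agent.Helper50.Outer
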