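import Mathlib
import Pool.Agent.Helper50.Outer.Base
import Pool.Agent.Helper37.CDC8.Circuits

namespace Pool.Agent.Helper50.Outer

open Finset Pool.Agent.Helper49.CDC
open scoped Classical

universe u v

variable {V : Type v} {E : Type u}

/-- the statement of the problem for one graph -/
def Q1P [Fintype E] (ends : E → Sym2 V) : Prop :=
  ∀ C, IsCycle ends C → ∃ lab : E → Fin 5 → ZMod 2, Lab ends Set.univ lab ∧ ∀ e ∈ C, lab e 0 = 1

/-- enumeration of the edges leaving `A` -/
structure Legs [Fintype E] (ends : E → Sym2 V) (A : Set V) {k : ℕ} (e : Fin k → E)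
    (x y : Fin k → V) : Prop where
  inj : Function.Injective e
  hends : ∀ i, ends (e i) = s(x i, y i)
  hx : ∀ i, x i ∈ A
  hy : ∀ i, y i ∉ A
  surj : ∀ f ∈ cut ends A, ∃ i, e i = f

theorem exists_legs [Fintype E] (ends : E → Sym2 V) (A : Set V) {k : ℕ}
    (h : (cut ends A).card = k) : ∃ (e : Fin k → E) (x y : Fin k → V), Legs ends A e x y := by
  have h1 : Fintype.card (Fin k) = Fintype.card (cut ends A) := by simp [h]
  let q : Fin k ≃ cut ends A := Fintype.equivOfCardEq h1
  have h2 : ∀ i, ∃ x y, ends (q i).1 = s(x, y) ∧ x ∈ A ∧ y ∉ A := by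
    intro i
    obtain ⟨a, b, hab⟩ := ends_rep ends (q i).1
    have h3 := (mem_cut_of hab).1 (q i).2
    by_cases ha : a ∈ A
    · exact ⟨a, b, hab, ha, by tauto⟩
    · exact ⟨b, a, by rw [hab, Sym2.eq_swap], by tauto, ha⟩
  choose x y hxy using h2
  refine ⟨fun i => (q i).1, x, y, ?_, fun i => (hxy i).1, fun i => (hxy i).2.1,
    fun i => (hxy i).2.2, ?_⟩
  · intro i j hij
    exact q.injective (Subtype.ext hij)
  · intro f hf
    exact ⟨q.symm ⟨f, hf⟩, by simp⟩

theorem Legs.mem [Fintype E] {ends : E → Sym2 V} {A : Set V} {k : ℕ} {e : Fin k → E}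
    {x y : Fin k → V} (h : Legs ends A e x y) (i : Fin k) : e i ∈ cut ends A := by
  rw [mem_cut_of (h.hends i)]
  have := h.hx i
  have := h.hy i
  tauto

theorem Legs.compl [Fintype E] {ends : E → Sym2 V} {A : Set V} {k : ℕ} {e : Fin k → E}
    {x y : Fin k → V} (h : Legs ends A e x y) : Legs ends Aᶜ e y x where
  inj := h.inj
  hends i := by rw [h.hends, Sym2.eq_swap]
  hx := h.hy
  hy i := by simpa using h.hx i
  surj f hf := h.surj f (by rwa [cut_compl] at hf)

theorem Legs.card [Fintype E] {ends : E → Sym2 V} {A : Set V} {k : ℕ} {e : Fin k → E}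
    {x y : Fin k → V} (h : Legs ends A e x y) : (cut ends A).card = k := by
  have h1 : cut ends A = univ.map ⟨e, h.inj⟩ := by
    ext f
    simp only [Finset.mem_map, Finset.mem_univ, true_and, Function.Embedding.coeFn_mk]
    constructor
    · exact h.surj f
    · rintro ⟨i, rfl⟩
      exact h.mem i
  rw [h1, Finset.card_map, Finset.card_univ, Fintype.card_fin]

/-- every edge is inside `A`, inside the complement or in the cut -/
theorem trichotomy [Fintype E] (ends : E → Sym2 V) (A : Set V) (f : E) :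
    f ∈ insd ends A ∨ f ∈ insd ends Aᶜ ∨ f ∈ cut ends A := by
  obtain ⟨a, b, h⟩ := ends_rep ends f
  rw [mem_insd_of h, mem_insd_of h, mem_cut_of h]
  simp only [Set.mem_compl_iff]
  tauto

theorem card_tri [Fintype E] (ends : E → Sym2 V) (A : Set V) :
    Fintype.card E = (insd ends A).card + (insd ends Aᶜ).card + (cut ends A).card := by
  have hd1 : Disjoint (insd ends A) (insd ends Aᶜ) := by
    rw [Finset.disjoint_left]
    intro f h1 h2
    obtain ⟨a, b, h⟩ := ends_rep ends f
    rw [mem_insd_of h] at h1 h2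
    exact h2.1 h1.1
  have hd2 : Disjoint (insd ends A ∪ insd ends Aᶜ) (cut ends A) := by
    rw [Finset.disjoint_left]
    intro f h1 h2
    obtain ⟨a, b, h⟩ := ends_rep ends f
    rw [Finset.mem_union, mem_insd_of h, mem_insd_of h] at h1
    rw [mem_cut_of h] at h2
    simp only [Set.mem_compl_iff] at h1
    tauto
  rw [← Finset.card_union_of_disjoint hd1, ← Finset.card_union_of_disjoint hd2,
    ← Finset.card_univ]
  congr 1
  ext f
  have := trichotomy ends A f
  simp only [Finset.mem_univ, Finset.mem_union, true_iff]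
  tauto

/-- the number of edges leaving `T ∩ A` -/
theorem card_cut_inter [Fintype E] {ends : E → Sym2 V} {A : Set V} {k : ℕ} {e : Fin k → E}
    {x y : Fin k → V} (h : Legs ends A e x y) (T : Set V) :
    (cut ends (T ∩ A)).card = (cut ends T ∩ insd ends A).card +
      (univ.filter (fun i => x i ∈ T)).card := by
  have h1 : (univ.filter (fun i => x i ∈ T)).card =
      ((univ.filter (fun i => x i ∈ T)).map ⟨e, h.inj⟩).card := (Finset.card_map _).symm
  rw [h1, ← Finset.card_union_of_disjoint]
  · congr 1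
    ext f
    obtain ⟨a, b, hf⟩ := ends_rep ends f
    simp only [Finset.mem_union, Finset.mem_inter, Finset.mem_map, Finset.mem_filter,
      Finset.mem_univ, true_and, Function.Embedding.coeFn_mk]
    rw [mem_cut_of hf, mem_cut_of hf, mem_insd_of hf]
    simp only [Set.mem_inter_iff]
    constructor
    · intro h2
      by_cases h3 : f ∈ cut ends A
      · right
        obtain ⟨i, rfl⟩ := h.surj f h3
        refine ⟨i, ?_, rfl⟩
        have h4 := h.hends i
        rw [hf, Sym2.eq_iff] at h4
        have h5 := h.hx i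
        have h6 := h.hy i
        rcases h4 with ⟨rfl, rfl⟩ | ⟨rfl, rfl⟩ <;> tauto
      · left
        rw [mem_cut_of hf] at h3
        tauto
    · rintro (h2 | ⟨i, h2, rfl⟩)
      · tauto
      · have h4 := h.hends i
        rw [hf, Sym2.eq_iff] at h4
        have h5 := h.hx i
        have h6 := h.hy i
        rcases h4 with ⟨rfl, rfl⟩ | ⟨rfl, rfl⟩ <;> tauto
  · rw [Finset.disjoint_left]
    intro f h2 h3
    simp only [Finset.mem_map, Finset.mem_filter, Finset.mem_univ, true_and,
      Function.Embedding.coeFn_mk] at h3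
    obtain ⟨i, _, rfl⟩ := h3
    have h4 := (Finset.mem_inter.1 h2).2
    rw [mem_insd_of (h.hends i)] at h4
    exact h.hy i h4.2

/-- the number of edges leaving `(T ∩ A) ∪ Aᶜ` -/
theorem card_cut_union [Fintype E] {ends : E → Sym2 V} {A : Set V} {k : ℕ} {e : Fin k → E}
    {x y : Fin k → V} (h : Legs ends A e x y) (T : Set V) :
    (cut ends ((T ∩ A) ∪ Aᶜ)).card = (cut ends T ∩ insd ends A).card +
      (univ.filter (fun i => x i ∉ T)).card := by
  have h1 : ((T ∩ A) ∪ Aᶜ) = (Tᶜ ∩ A)ᶜ := by
    ext v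
    simp only [Set.mem_union, Set.mem_inter_iff, Set.mem_compl_iff]
    tauto
  rw [h1, cut_compl, card_cut_inter h, cut_compl]
  simp only [Set.mem_compl_iff]

theorem isCycle_map {E' : Type*} {ends : E → Sym2 V} {ends' : E' → Sym2 V} (τ : E → E')
    {C : Set E} (hC : IsCycle ends C) (h : ∀ e ∈ C, ends' (τ e) = ends e)
    (hi : Set.InjOn τ C) : IsCycle ends' (τ '' C) := by
  obtain ⟨n, w, f, hn, hw, hf, he, hr⟩ := hC
  refine ⟨n, w, fun i => τ (f i), hn, hw, ?_, ?_, ?_⟩
  · intro i j hij
    apply hf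
    apply hi _ _ hij
    · rw [← hr]; exact ⟨i, rfl⟩
    · rw [← hr]; exact ⟨j, rfl⟩
  · intro i
    rw [h (f i) (by rw [← hr]; exact ⟨i, rfl⟩), he]
  · rw [← hr, ← Set.range_comp]
    rfl

/-- a double cover without a prescribed cycle -/
theorem exists_lab [Finite V] [Fintype E] {ends : E → Sym2 V} (hG : Good ends) (h : Q1P ends) :
    ∃ lab : E → Fin 5 → ZMod 2, Lab ends Set.univ lab := by
  by_cases hE : Nonempty E
  · obtain ⟨e0⟩ := hE
    obtain ⟨C, -, hne, hC⟩ := Pool.Agent.Helper37.CDC8.exists_circuit ends Set.univ ⟨e0, trivial⟩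
      (fun e _ => hG.loopless e) (by
        intro e _ w hw
        have h1 : e ∈ dl ends w := mem_dl.2 hw
        have h3 : (dl ends w).card = 3 := by
          rcases hG.deg w with h2 | h2
          · rw [Finset.card_eq_zero] at h2
            rw [h2] at h1
            simp at h1
          · exact h2
        obtain ⟨e', he', hne⟩ := Finset.exists_mem_ne (by rw [h3]; norm_num) e
        exact ⟨e', trivial, hne, mem_dl.1 he'⟩)
    obtain ⟨n, w, f, hn, hw, hf, he, hr⟩ := hC
    have hn2 : 2 ≤ n := by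
      by_contra h2
      have h3 : n = 1 := by omega
      subst h3
      have h4 := he 0
      have h5 : w 0 = w (0 + 1) := by congr 1
      rw [← h5] at h4
      apply hG.loopless (f 0)
      rw [h4]
      exact Sym2.diag_isDiag _
    obtain ⟨lab, h1, -⟩ := h C ⟨n, w, f, hn2, hw, hf, he, hr⟩
    exact ⟨lab, h1⟩
  · refine ⟨fun _ _ => 0, ⟨?_, ?_⟩⟩
    · intro v _
      unfold bd
      apply Finset.sum_eq_zero
      intro e _
      exact absurd ⟨e⟩ hE
    · intro e
      exact absurd ⟨e⟩ hE

/-- the ends of the graph in which the part outside `A` is replaced by a gadget -/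
def gends [Fintype E] (ends : E → Sym2 V) (A : Set V) {Γ : Type} (γ : Γ → Sym2 V) :
    {e // e ∈ insd ends A} ⊕ Γ → Sym2 V := Sum.elim (fun e => ends e.1) γ

theorem card_dl_gends [Fintype E] (ends : E → Sym2 V) (A : Set V) {Γ : Type} [Fintype Γ]
    (γ : Γ → Sym2 V) (v : V) : (dl (gends ends A γ) v).card =
      (dl ends v ∩ insd ends A).card + (dl γ v).card := by
  have h1 : dl (gends ends A γ) v = (univ.filter (fun e : {e // e ∈ insd ends A} =>
      v ∈ ends e.1)).disjSum (dl γ v) := by
    ext e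
    rcases e with e | e
    · rw [mem_dl, Finset.inl_mem_disjSum]
      simp only [Finset.mem_filter, Finset.mem_univ, true_and]
      rfl
    · rw [mem_dl, Finset.inr_mem_disjSum, mem_dl]
      rfl
  rw [h1, Finset.card_disjSum]
  congr 1
  rw [← Finset.card_map (Function.Embedding.subtype _)]
  congr 1
  ext e
  simp only [Finset.mem_map, Finset.mem_filter, Finset.mem_univ, true_and,
    Function.Embedding.coe_subtype, Subtype.exists, exists_and_left, exists_prop,
    Finset.mem_inter, mem_dl, exists_eq_right_right]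

theorem card_cut_gends [Fintype E] (ends : E → Sym2 V) (A : Set V) {Γ : Type} [Fintype Γ]
    (γ : Γ → Sym2 V) (T : Set V) : (cut (gends ends A γ) T).card =
      (cut ends T ∩ insd ends A).card + (cut γ T).card := by
  have h1 : cut (gends ends A γ) T = (univ.filter (fun e : {e // e ∈ insd ends A} =>
      e.1 ∈ cut ends T)).disjSum (cut γ T) := by
    ext e
    rcases e with e | e
    · rw [mem_cut, Finset.inl_mem_disjSum]
      simp only [Finset.mem_filter, Finset.mem_univ, true_and, mem_cut]
      rfl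
    · rw [mem_cut, Finset.inr_mem_disjSum, mem_cut]
      rfl
  rw [h1, Finset.card_disjSum]
  congr 1
  rw [← Finset.card_map (Function.Embedding.subtype _)]
  congr 1
  ext e
  simp only [Finset.mem_map, Finset.mem_filter, Finset.mem_univ, true_and,
    Function.Embedding.coe_subtype, Subtype.exists, exists_and_left, exists_prop,
    Finset.mem_inter, exists_eq_right_right]

/-- replacing the part of the graph outside `A` by a smaller gadget -/
theorem gadget [Finite V] [Fintype E] {ends : E → Sym2 V} (hG : Good ends)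
    {A : Set V} {k : ℕ} {e : Fin k → E} {x y : Fin k → V} (hL : Legs ends A e x y)
    {Γ : Type} [Fintype Γ] (γ : Γ → Sym2 V) (g : Fin k → Γ)
    (h1 : ∀ j, ∀ v ∈ A, v ∈ γ j ↔ ∃ i, g i = j ∧ x i = v)
    (h2 : ∀ i i', g i = g i' → x i = x i' → i = i')
    (h3 : ∀ j, ¬ (γ j).IsDiag)
    (h4 : ∀ v, v ∉ A → (dl γ v).card = 0 ∨ (dl γ v).card = 3)
    (h5 : ∀ T : Set V, (cut ends T ∩ insd ends A).card + (cut γ T).card ≠ 1)
    (hc : Fintype.card Γ < k + (insd ends Aᶜ).card)
    (IH : ∀ (E' : Type u) [Fintype E'] (ends' : E' → Sym2 V), Fintype.card E' < Fintype.card E →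
      Good ends' → Q1P ends')
    (C : Set E) (hC : IsCycle ends C ∨ C = ∅) (hCA : ∀ f ∈ C, f ∈ insd ends A) :
    ∃ (lab : E → Fin 5 → ZMod 2) (μ : Γ → Fin 5 → ZMod 2), Lab ends A lab ∧
      (∀ f ∈ C, lab f 0 = 1) ∧ (∀ i, lab (e i) = μ (g i)) ∧ (∀ j, Wt2 (μ j)) ∧
      ∀ v, v ∉ A → bd γ μ v = 0 := by
  let ends' := gends ends A γ
  -- the map on the edges
  let τ : E → Option ({e // e ∈ insd ends A} ⊕ Γ) := fun f =>
    if hf : f ∈ insd ends A then some (Sum.inl ⟨f, hf⟩) else
      if hf' : ∃ i, e i = f then some (Sum.inr (g hf'.choose)) else none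
  have hτ1 : ∀ f (hf : f ∈ insd ends A), τ f = some (Sum.inl ⟨f, hf⟩) := by
    intro f hf
    simp only [τ]
    rw [dif_pos hf]
  have hτ2 : ∀ i, τ (e i) = some (Sum.inr (g i)) := by
    intro i
    have h6 : e i ∉ insd ends A := by
      rw [mem_insd_of (hL.hends i)]
      exact fun h => hL.hy i h.2
    have h7 : ∃ i', e i' = e i := ⟨i, rfl⟩
    simp only [τ]
    rw [dif_neg h6, dif_pos h7]
    congr 2
    exact congrArg g (hL.inj h7.choose_spec)
  -- at a vertex of `A`
  have hcases : ∀ v ∈ A, ∀ f, v ∈ ends f → f ∈ insd ends A ∨ ∃ i, e i = f ∧ x i = v := by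
    intro v hv f hf
    rcases trichotomy ends A f with h | h | h
    · exact Or.inl h
    · exact absurd hv (mem_insd.1 h v hf)
    · right
      obtain ⟨i, rfl⟩ := hL.surj f h
      refine ⟨i, rfl, ?_⟩
      rw [hL.hends, Sym2.mem_iff] at hf
      rcases hf with rfl | rfl
      · rfl
      · exact absurd hv (hL.hy i)
  have key : ∀ v ∈ A, (dl ends v).image τ = (dl ends' v).map ⟨some, Option.some_injective _⟩ := by
    intro v hv
    ext o
    simp only [Finset.mem_image, Finset.mem_map, mem_dl, Function.Embedding.coeFn_mk]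
    constructor
    · rintro ⟨f, hf, rfl⟩
      rcases hcases v hv f hf with h | ⟨i, rfl, rfl⟩
      · exact ⟨Sum.inl ⟨f, h⟩, hf, (hτ1 f h).symm⟩
      · exact ⟨Sum.inr (g i), (h1 (g i) (x i) hv).2 ⟨i, rfl, rfl⟩, (hτ2 i).symm⟩
    · rintro ⟨f, hf, rfl⟩
      rcases f with f | j
      · exact ⟨f.1, hf, hτ1 f.1 f.2⟩
      · obtain ⟨i, rfl, rfl⟩ := (h1 j v hv).1 hf
        exact ⟨e i, by rw [hL.hends]; simp, hτ2 i⟩
  have keyinj : ∀ v ∈ A, Set.InjOn τ (dl ends v) := by
    intro v hv f hf f' hf' hff
    rw [Finset.mem_coe, mem_dl] at hf hf'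
    rcases hcases v hv f hf with h | ⟨i, rfl, rfl⟩
    · rcases hcases v hv f' hf' with h' | ⟨i', rfl, hi'⟩
      · rw [hτ1 f h, hτ1 f' h'] at hff
        simpa using hff
      · rw [hτ1 f h, hτ2] at hff
        simp at hff
    · rcases hcases _ hv f' hf' with h' | ⟨i', rfl, hi'⟩
      · rw [hτ1 f' h', hτ2] at hff
        simp at hff
      · rw [hτ2, hτ2] at hff
        have h6 : g i = g i' := by simpa using hff
        rw [h2 i i' h6 hi'.symm]
  have hGood : Good ends' := by
    refine ⟨?_, ?_, ?_⟩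
    · rintro (f | j)
      · exact hG.loopless f.1
      · exact h3 j
    · intro v
      by_cases hv : v ∈ A
      · have h6 : (dl ends' v).card = (dl ends v).card := by
          rw [← Finset.card_image_of_injOn (keyinj v hv), key v hv, Finset.card_map]
        rw [h6]
        exact hG.deg v
      · rw [card_dl_gends]
        have h6 : dl ends v ∩ insd ends A = ∅ := by
          ext f
          simp only [Finset.mem_inter, mem_dl, mem_insd, Finset.notMem_empty, iff_false, not_and]
          intro h7 h8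
          exact hv (h8 v h7)
        rw [h6, Finset.card_empty, zero_add]
        exact h4 v hv
    · intro T
      rw [card_cut_gends]
      exact h5 T
  have hcard : Fintype.card ({e // e ∈ insd ends A} ⊕ Γ) < Fintype.card E := by
    rw [Fintype.card_sum, card_tri ends A, hL.card, Fintype.card_coe]
    omega
  have hQ := IH _ ends' hcard hGood
  -- the labelling of the smaller graph
  have hlab : ∃ lab' : {e // e ∈ insd ends A} ⊕ Γ → Fin 5 → ZMod 2, Lab ends' Set.univ lab' ∧
      ∀ f (hf : f ∈ insd ends A), f ∈ C → lab' (Sum.inl ⟨f, hf⟩) 0 = 1 := by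
    rcases hC with hC | hC
    · have h6 : Nonempty ({e // e ∈ insd ends A} ⊕ Γ) := by
        obtain ⟨n, w, f, hn, hw, hf, he, hr⟩ := hC
        exact ⟨Sum.inl ⟨f 0, hCA _ (by rw [← hr]; exact ⟨0, rfl⟩)⟩⟩
      obtain ⟨o⟩ := h6
      let τ' : E → {e // e ∈ insd ends A} ⊕ Γ := fun f =>
        if hf : f ∈ insd ends A then Sum.inl ⟨f, hf⟩ else o
      have hτ' : ∀ f (hf : f ∈ insd ends A), τ' f = Sum.inl ⟨f, hf⟩ := by
        intro f hf
        change (if hf : f ∈ insd ends A then Sum.inl ⟨f, hf⟩ else o) = _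
        rw [dif_pos hf]
      obtain ⟨lab', h7, h8⟩ := hQ (τ' '' C) (isCycle_map τ' hC (by
        intro f hf
        rw [hτ' f (hCA f hf)]
        rfl) (by
        intro f hf f' hf' hff
        rw [hτ' f (hCA f hf), hτ' f' (hCA f' hf')] at hff
        simpa using hff))
      refine ⟨lab', h7, ?_⟩
      intro f hf hfC
      rw [← hτ' f hf]
      exact h8 _ ⟨f, hfC, rfl⟩
    · obtain ⟨lab', h7⟩ := exists_lab hGood hQ
      refine ⟨lab', h7, ?_⟩
      intro f _ hfC
      rw [hC] at hfC
      exact absurd hfC (Set.notMem_empty f)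
  obtain ⟨lab', hlab', hC'⟩ := hlab
  refine ⟨fun f => (τ f).elim 0 lab', fun j => lab' (Sum.inr j), ⟨?_, ?_⟩, ?_, ?_, ?_, ?_⟩
  · intro v hv
    have h6 : bd ends (fun f => (τ f).elim 0 lab') v = bd ends' lab' v := by
      rw [bd_dl, bd_dl]
      have h7 : ∑ f ∈ dl ends v, (τ f).elim 0 lab' =
          ∑ o ∈ (dl ends v).image τ, o.elim 0 lab' :=
        (Finset.sum_image (f := fun o => Option.elim o 0 lab') (keyinj v hv)).symm
      rw [h7, key v hv, Finset.sum_map]
      rfl
    rw [h6]
    exact hlab'.bd0 v trivial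
  · intro f v hvf hv
    rcases hcases v hv f hvf with h | ⟨i, rfl, rfl⟩
    · rw [hτ1 f h]
      exact hlab'.wt (Sum.inl ⟨f, h⟩) v hvf trivial
    · rw [hτ2]
      exact hlab'.wt (Sum.inr (g i)) (x i) ((h1 (g i) (x i) hv).2 ⟨i, rfl, rfl⟩) trivial
  · intro f hf
    change (τ f).elim 0 lab' 0 = 1
    rw [hτ1 f (hCA f hf)]
    exact hC' f (hCA f hf) hf
  · intro i
    change (τ (e i)).elim 0 lab' = _
    rw [hτ2]
    rfl
  · intro j
    obtain ⟨a, b, hab⟩ := ends_rep γ j
    exact hlab'.wt (Sum.inr j) a (by change a ∈ γ j; rw [hab]; simp) trivial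
  · intro v hv
    have h6 := hlab'.bd0 v trivial
    rw [← h6, bd_dl, bd_dl]
    have h7 : dl ends' v = (dl γ v).map ⟨Sum.inr, Sum.inr_injective⟩ := by
      ext f
      rcases f with f | j
      · simp only [mem_dl, Finset.mem_map, Function.Embedding.coeFn_mk, reduceCtorEq, and_false,
          exists_false, iff_false]
        intro h8
        exact hv (mem_insd.1 f.2 v h8)
      · simp only [mem_dl, Finset.mem_map, Function.Embedding.coeFn_mk, Sum.inr.injEq,
          exists_eq_right]
        rfl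
    rw [h7, Finset.sum_map]
    rfl

end Pool.Agent.Helper50.Outer
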