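import Mathlib
import Pool.Agent.Helper50.Outer.Gadget

namespace Pool.Agent.Helper50.Outer

open Finset Pool.Agent.Helper49.CDC
open scoped Classical

universe u v

variable {V : Type v} {E : Type u} {ι κ : Type*}

/-- the indicator of a pair -/
noncomputable def pr (a b : ι) : ι → ZMod 2 := fun i => if i = a ∨ i = b then 1 else 0

theorem pr_comm (a b : ι) : pr a b = pr b a := by
  ext i; unfold pr; simp only [or_comm]

theorem wt2_pr {a b : ι} (h : a ≠ b) : Wt2 (pr a b) := ⟨a, b, h, fun _ => rfl⟩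

theorem Wt2.exists_pr {p : ι → ZMod 2} (h : Wt2 p) : ∃ a b, a ≠ b ∧ p = pr a b := by
  obtain ⟨a, b, h1, h2⟩ := h
  exact ⟨a, b, h1, funext h2⟩

theorem pr_comp (π : Equiv.Perm ι) (a b : ι) (i : ι) : pr (π a) (π b) (π i) = pr a b i := by
  unfold pr
  simp only [EmbeddingLike.apply_eq_iff_eq]

theorem perm2 (a b a' b' : ι) (h : a ≠ b) (h' : a' ≠ b') :
    ∃ π : Equiv.Perm ι, π a' = a ∧ π b' = b := by
  refine ⟨(Equiv.swap a' a).trans (Equiv.swap (Equiv.swap a' a b') b), ?_, ?_⟩
  · rw [Equiv.trans_apply, Equiv.swap_apply_left, Equiv.swap_apply_of_ne_of_ne]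
    · intro h1
      apply h'
      have h2 : Equiv.swap a' a a' = Equiv.swap a' a b' := by rw [← h1, Equiv.swap_apply_left]
      exact (Equiv.swap a' a).injective h2
    · exact h
  · rw [Equiv.trans_apply, Equiv.swap_apply_left]

theorem perm3 (a b c a' b' c' : ι) (hab : a ≠ b) (hac : a ≠ c) (hbc : b ≠ c)
    (hab' : a' ≠ b') (hac' : a' ≠ c') (hbc' : b' ≠ c') :
    ∃ π : Equiv.Perm ι, π a' = a ∧ π b' = b ∧ π c' = c := by
  obtain ⟨π, h1, h2⟩ := perm2 a b a' b' hab hab'
  refine ⟨π.trans (Equiv.swap (π c') c), ?_, ?_, ?_⟩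
  · rw [Equiv.trans_apply, h1, Equiv.swap_apply_of_ne_of_ne]
    · rw [← h1]
      exact fun h => hac' (π.injective h)
    · exact hac
  · rw [Equiv.trans_apply, h2, Equiv.swap_apply_of_ne_of_ne]
    · rw [← h2]
      exact fun h => hbc' (π.injective h)
    · exact hbc
  · rw [Equiv.trans_apply, Equiv.swap_apply_left]

theorem wt2_perm {p q : ι → ZMod 2} (hp : Wt2 p) (hq : Wt2 q) :
    ∃ π : Equiv.Perm ι, ∀ i, p (π i) = q i := by
  obtain ⟨a, b, hab, rfl⟩ := hp.exists_pr
  obtain ⟨a', b', hab', rfl⟩ := hq.exists_pr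
  obtain ⟨π, rfl, rfl⟩ := perm2 a b a' b' hab hab'
  exact ⟨π, pr_comp π a' b'⟩

/-- three pairs with sum zero form a triangle -/
theorem triangle {p1 p2 p3 : ι → ZMod 2} (h1 : Wt2 p1) (h2 : Wt2 p2) (h3 : Wt2 p3)
    (h : p1 + p2 + p3 = 0) : ∃ a b c, a ≠ b ∧ a ≠ c ∧ b ≠ c ∧ p1 = pr a b ∧ p2 = pr b c ∧
      p3 = pr a c := by
  obtain ⟨a, b, hab, rfl⟩ := h1.exists_pr
  obtain ⟨c, d, hcd, rfl⟩ := h2.exists_pr
  obtain ⟨e, f, hef, rfl⟩ := h3.exists_pr
  have h0 : ∀ i, pr a b i + pr c d i + pr e f i = 0 := fun i => congrFun h i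
  -- the third is determined by the others
  have key : ∀ a b c : ι, a ≠ b → a ≠ c → b ≠ c → ∀ i, pr a b i + pr b c i = pr a c i := by
    intro a b c hab hac hbc i
    unfold pr
    by_cases h1 : i = a
    · subst h1; simp [hab, hac]
    · by_cases h2 : i = b
      · subst h2
        simp [h1, hbc]
        decide
      · by_cases h3 : i = c
        · subst h3; simp [h1, h2]
        · simp [h1, h2, h3]
  have z2 : ∀ x y : ZMod 2, x + y = 0 → y = x := by decide
  have fin : ∀ a b c : ι, a ≠ b → a ≠ c → b ≠ c → (∀ i, pr a b i + pr b c i + pr e f i = 0) →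
      pr e f = pr a c := by
    intro a b c h4 h5 h6 h7
    ext i
    have h8 := h7 i
    rw [key a b c h4 h5 h6] at h8
    exact z2 _ _ h8
  by_cases hac : a = c
  · subst hac
    by_cases hbd : b = d
    · subst hbd
      exfalso
      have h4 := h0 e
      unfold pr at h4
      simp only [true_or, if_true] at h4
      revert h4
      split_ifs <;> decide
    · refine ⟨b, a, d, hab.symm, hbd, hcd, pr_comm _ _, rfl, ?_⟩
      apply fin b a d hab.symm hbd hcd
      intro i
      rw [pr_comm b a]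
      exact h0 i
  · by_cases had : a = d
    · subst had
      by_cases hbc : b = c
      · subst hbc
        exfalso
        have h4 := h0 e
        unfold pr at h4
        simp only [true_or, if_true] at h4
        revert h4
        split_ifs <;> first | decide | tauto
      · refine ⟨b, a, c, hab.symm, hbc, hac, pr_comm _ _, pr_comm _ _, ?_⟩
        apply fin b a c hab.symm hbc hac
        intro i
        rw [pr_comm b a, pr_comm a c]
        exact h0 i
    · by_cases hbc : b = c
      · subst hbc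
        refine ⟨a, b, d, hab, had, hcd, rfl, rfl, ?_⟩
        exact fin a b d hab had hcd h0
      · by_cases hbd : b = d
        · subst hbd
          refine ⟨a, b, c, hab, hac, hbc, rfl, pr_comm _ _, ?_⟩
          apply fin a b c hab hac hbc
          intro i
          rw [pr_comm b c]
          exact h0 i
        · exfalso
          have ha : a = e ∨ a = f := by
            by_contra h5
            have h4 := h0 a
            unfold pr at h4
            simp [hac, had, h5] at h4
          have hb : b = e ∨ b = f := by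
            by_contra h5
            have h4 := h0 b
            unfold pr at h4
            simp [hbc, hbd, h5] at h4
          have hc : c = e ∨ c = f := by
            by_contra h5
            have h4 := h0 c
            unfold pr at h4
            simp [Ne.symm hac, Ne.symm hbc, h5] at h4
          rcases ha with rfl | rfl <;> rcases hb with rfl | rfl <;> rcases hc with rfl | rfl <;>
            simp_all

theorem wt2_perm3 {p1 p2 p3 q1 q2 q3 : ι → ZMod 2} (hp1 : Wt2 p1) (hp2 : Wt2 p2) (hp3 : Wt2 p3)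
    (hp : p1 + p2 + p3 = 0) (hq1 : Wt2 q1) (hq2 : Wt2 q2) (hq3 : Wt2 q3)
    (hq : q1 + q2 + q3 = 0) :
    ∃ π : Equiv.Perm ι, ∀ i, p1 (π i) = q1 i ∧ p2 (π i) = q2 i ∧ p3 (π i) = q3 i := by
  obtain ⟨a, b, c, h1, h2, h3, rfl, rfl, rfl⟩ := triangle hp1 hp2 hp3 hp
  obtain ⟨a', b', c', h1', h2', h3', rfl, rfl, rfl⟩ := triangle hq1 hq2 hq3 hq
  obtain ⟨π, rfl, rfl, rfl⟩ := perm3 a b c a' b' c' h1 h2 h3 h1' h2' h3'
  exact ⟨π, fun i => ⟨pr_comp π _ _ i, pr_comp π _ _ i, pr_comp π _ _ i⟩⟩

theorem Wt2.comp {p : ι → ZMod 2} (h : Wt2 p) (π : κ ≃ ι) : Wt2 (fun i => p (π i)) := by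
  obtain ⟨a, b, h1, h2⟩ := h
  refine ⟨π.symm a, π.symm b, fun h => h1 (π.symm.injective h), ?_⟩
  intro i
  change p (π i) = _
  rw [h2]
  simp only [Equiv.eq_symm_apply]

theorem Lab.perm [Fintype E] {ends : E → Sym2 V} {Q : Set V} {lab : E → ι → ZMod 2}
    (h : Lab ends Q lab) (π : κ ≃ ι) : Lab ends Q (fun e i => lab e (π i)) where
  bd0 v hv := by
    ext i
    have h1 := congrFun (h.bd0 v hv) (π i)
    unfold bd at h1 ⊢
    rw [Finset.sum_apply] at h1 ⊢
    exact h1
  wt e v hv hvQ := (h.wt e v hv hvQ).comp π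

theorem glue [Fintype E] {ends : E → Sym2 V} {A : Set V} {l1 l2 : E → ι → ZMod 2}
    (h1 : Lab ends A l1) (h2 : Lab ends Aᶜ l2) (h : ∀ e ∈ cut ends A, l1 e = l2 e) :
    ∃ lab, Lab ends Set.univ lab ∧ ∀ f ∈ insd ends A, lab f = l1 f := by
  have hA : ∀ e v, v ∈ ends e → v ∈ A → (if ∃ v ∈ ends e, v ∈ A then l1 e else l2 e) = l1 e :=
    fun e v h3 h4 => if_pos ⟨v, h3, h4⟩
  have hB : ∀ e v, v ∈ ends e → v ∉ A → (if ∃ v ∈ ends e, v ∈ A then l1 e else l2 e) = l2 e := by
    intro e v h3 h4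
    split_ifs with h5
    · exact h e (mem_cut.2 ⟨h5, v, h3, h4⟩)
    · rfl
  refine ⟨fun e => if ∃ v ∈ ends e, v ∈ A then l1 e else l2 e, ⟨?_, ?_⟩, ?_⟩
  · intro v _
    by_cases hv : v ∈ A
    · rw [← h1.bd0 v hv]
      apply Finset.sum_congr rfl
      intro e he
      exact hA e v (mem_dl.1 he) hv
    · rw [← h2.bd0 v hv]
      apply Finset.sum_congr rfl
      intro e he
      exact hB e v (mem_dl.1 he) hv
  · intro e v hve _
    by_cases hv : v ∈ A
    · rw [hA e v hve hv]
      exact h1.wt e v hve hv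
    · rw [hB e v hve hv]
      exact h2.wt e v hve hv
  · intro f hf
    obtain ⟨a, b, hab⟩ := ends_rep ends f
    rw [mem_insd_of hab] at hf
    exact hA f a (by rw [hab]; simp) hf.1

end Pool.Agent.Helper50.Outer
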