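import Mathlib
import Pool.Agent.Helper50.Outer.Labels
import Pool.Agent.Helper37.IE.St.OpenExt

/-! MP_7cf8d2, outer part, piece OUT-4: a multipole `Q` with four legs which is `Fine` has the
states of one of the two gadgets (two strands, or an H-tree), for a suitable order of the legs.

Leg values `b` of a robust flow: all nonzero with sum zero (open_ext needs only this), so of type
`A`: `(x,x,x,x)` or `E(1j)`: two legs have the value `x`, the other two `y ≠ x`.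
(1) `open_ext`: for a good `b` with values `h l = b (e l)` and ANY `τ0 : legs → ZMod 2` with sum 0
there are `σ, τ` on `Q`; the labelling over `ι = Option W` is
`lab f none = if f ∈ X then 1 else 0`, `lab f (some w) = om w (σ f) + τ f + x f * (1 + nn w)`,
`x = indicator of X` (see the proof of `Helper49.CDC.fiveCDC`).  So the leg `l` gets the pair
`{w | om w (h l) + τ0 l = 1}`, one of the two cosets of `{0, h l}` in `W`.
(2) type `A`, `(x,x,x,x)`: choose the cosets: all equal (both pairs `p, p'` equal), or two and two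
(in any of the three ways): with `Wt2 p, Wt2 p'` equal or disjoint, take a bijection
`Fin 5 ≃ Option W` sending `p` and `p'` to cosets of `{0,x}`.
(3) type `E(1j)`: leg values `x,x` on `1,j` and `y,y` on `k,l`: labels `p,p,p',p'` with `p, p'`
meeting in exactly one element, and the 4-cycles in which `1` and `j` are opposite
(`p1, pj` disjoint, `pk, pl` disjoint, same union).
(4) switching (`Switchable.sw`): from type `A` with `w ≠ x` one gets some `E(1j)`; from `E(1j)` with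
`w = x + y` one gets `A`, or `E(1k)`, or `E(1l)`.  So the set of types contains `{A, E(1j)}`:
first alternative (strands `1 j | k l`: `p, p'` are equal, disjoint: type `A`; meet in one element:
type `E(1j)`), or `{E(1k), E(1l)}`: second alternative with `1, j` first (`Wt2 (p 0 + p 1)`:
`p` has type `E(1k)`, `E(1l)` with one common element, or is a 4-cycle with `1,k` or `1,l`
opposite).
-/

namespace Pool.Agent.Helper50.Outer

open Finset Pool.Agent.Helper49.CDC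

universe u v

/-! ### pure combinatorics of the labels -/

theorem fs_fib {α β γ : Type*} [Fintype α] [Fintype β] [DecidableEq γ] (f : α → γ) (g : β → γ)
    (h : ∀ c, (univ.filter (fun a => f a = c)).card = (univ.filter (fun b => g b = c)).card) :
    ∃ ρ : α ≃ β, ∀ a, g (ρ a) = f a := by
  have e : ∀ c, Nonempty ({a // f a = c} ≃ {b // g b = c}) := by
    intro c
    apply Fintype.card_eq.1
    rw [Fintype.card_subtype, Fintype.card_subtype]
    exact h c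
  exact ⟨Equiv.ofFiberEquiv fun c => (e c).some, Equiv.ofFiberEquiv_map _⟩

/-- the label of a leg -/
def fsLb (c : W) (t : ZMod 2) (o : Option W) : ZMod 2 := o.elim 0 (fun w => om w c + t)

/-- the pair `{a, b}` -/
def fsVec (a b : Fin 5) (i : Fin 5) : ZMod 2 := if i = a ∨ i = b then 1 else 0

theorem Wt2.fsVec {p : Fin 5 → ZMod 2} (h : Wt2 p) : ∃ a b, a ≠ b ∧ p = fsVec a b := by
  obtain ⟨a, b, hab, hp⟩ := h
  refine ⟨a, b, hab, funext fun i => ?_⟩
  rw [hp i]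
  unfold Outer.fsVec
  by_cases hi : i = a ∨ i = b
  · rw [if_pos hi, if_pos hi]
  · rw [if_neg hi, if_neg hi]

theorem fs_wt2Vec {a b : Fin 5} (h : a ≠ b) : Wt2 (fsVec a b) := by
  refine ⟨a, b, h, fun i => ?_⟩
  unfold fsVec
  by_cases hi : i = a ∨ i = b
  · rw [if_pos hi, if_pos hi]
  · rw [if_neg hi, if_neg hi]

theorem fs_vecCard : ∀ a b : Fin 5, a ≠ b → (univ.filter (fun i => fsVec a b i = 1)).card = 2 := by
  decide

theorem Wt2.fsCard {p : Fin 5 → ZMod 2} (h : Wt2 p) : (univ.filter (fun i => p i = 1)).card = 2 := by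
  obtain ⟨a, b, hab, rfl⟩ := h.fsVec
  exact fs_vecCard a b hab

theorem fs_cA : ∀ a b : Fin 5, a ≠ b → ∀ x : W, x ≠ 0 → ∀ c : ZMod 2,
    (univ.filter (fun i => fsVec a b i = c)).card = (univ.filter (fun o => fsLb x 0 o = c)).card := by
  decide +kernel

theorem fs_cD : ∀ a b c d : Fin 5, a ≠ b → c ≠ d → (∀ i, ¬ (fsVec a b i = 1 ∧ fsVec c d i = 1)) →
    ∀ k : ZMod 2 × ZMod 2, (univ.filter (fun i => (fsVec a b i, fsVec c d i) = k)).card =
      if k.1 = 1 then (if k.2 = 1 then 0 else 2) else (if k.2 = 1 then 2 else 1) := by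
  decide +kernel

theorem fs_lD : ∀ x : W, x ≠ 0 → ∀ k : ZMod 2 × ZMod 2,
    (univ.filter (fun o => (fsLb x 0 o, fsLb x 1 o) = k)).card =
      if k.1 = 1 then (if k.2 = 1 then 0 else 2) else (if k.2 = 1 then 2 else 1) := by
  decide +kernel

theorem fs_cE : ∀ a b c d : Fin 5, a ≠ b → c ≠ d →
    (univ.filter (fun i => fsVec a b i + fsVec c d i = 1)).card = 2 →
    ∀ k : ZMod 2 × ZMod 2, (univ.filter (fun i => (fsVec a b i, fsVec c d i) = k)).card =
      if k.1 = 1 then 1 else (if k.2 = 1 then 1 else 2) := by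
  decide +kernel

theorem fs_lE : ∀ x y : W, x ≠ 0 → y ≠ 0 → x ≠ y → ∀ k : ZMod 2 × ZMod 2,
    (univ.filter (fun o => (fsLb x 0 o, fsLb y 0 o) = k)).card =
      if k.1 = 1 then 1 else (if k.2 = 1 then 1 else 2) := by
  decide +kernel

theorem fs_isoA {x : W} (hx : x ≠ 0) {p : Fin 5 → ZMod 2} (hp : Wt2 p) :
    ∃ ρ : Fin 5 ≃ Option W, ∀ i, fsLb x 0 (ρ i) = p i := by
  obtain ⟨a, b, hab, rfl⟩ := hp.fsVec
  exact fs_fib _ _ (fs_cA a b hab x hx)

theorem fs_isoD {x : W} (hx : x ≠ 0) {p p' : Fin 5 → ZMod 2} (hp : Wt2 p) (hp' : Wt2 p')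
    (h : ∀ i, ¬ (p i = 1 ∧ p' i = 1)) :
    ∃ ρ : Fin 5 ≃ Option W, ∀ i, fsLb x 0 (ρ i) = p i ∧ fsLb x 1 (ρ i) = p' i := by
  obtain ⟨a, b, hab, rfl⟩ := hp.fsVec
  obtain ⟨c, d, hcd, rfl⟩ := hp'.fsVec
  obtain ⟨ρ, hρ⟩ := fs_fib (fun i => (fsVec a b i, fsVec c d i)) (fun o => (fsLb x 0 o, fsLb x 1 o))
    (fun k => (fs_cD a b c d hab hcd h k).trans (fs_lD x hx k).symm)
  exact ⟨ρ, fun i => ⟨congrArg Prod.fst (hρ i), congrArg Prod.snd (hρ i)⟩⟩

theorem fs_isoE {x y : W} (hx : x ≠ 0) (hy : y ≠ 0) (hxy : x ≠ y) {p p' : Fin 5 → ZMod 2}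
    (hp : Wt2 p) (hp' : Wt2 p') (h : (univ.filter (fun i => p i + p' i = 1)).card = 2) :
    ∃ ρ : Fin 5 ≃ Option W, ∀ i, fsLb x 0 (ρ i) = p i ∧ fsLb y 0 (ρ i) = p' i := by
  obtain ⟨a, b, hab, rfl⟩ := hp.fsVec
  obtain ⟨c, d, hcd, rfl⟩ := hp'.fsVec
  obtain ⟨ρ, hρ⟩ := fs_fib (fun i => (fsVec a b i, fsVec c d i)) (fun o => (fsLb x 0 o, fsLb y 0 o))
    (fun k => (fs_cE a b c d hab hcd h k).trans (fs_lE x y hx hy hxy k).symm)
  exact ⟨ρ, fun i => ⟨congrArg Prod.fst (hρ i), congrArg Prod.snd (hρ i)⟩⟩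

/-- two different pairs with a common element -/
theorem fs_meet : ∀ a b c d : Fin 5, a ≠ b → c ≠ d → fsVec a b ≠ fsVec c d →
    (∃ i, fsVec a b i = 1 ∧ fsVec c d i = 1) →
    (univ.filter (fun i => fsVec a b i + fsVec c d i = 1)).card = 2 := by
  decide +kernel

set_option synthInstance.maxSize 4096 in
theorem fs_class : ∀ f g : Fin 5, f ≠ g →
    (univ.filter (fun i => fsVec 0 1 i + fsVec 0 2 i + fsVec f g i = 1)).card = 2 →
    fsVec f g = fsVec 0 1 ∨ fsVec f g = fsVec 0 2 ∨ (∃ h : Fin 5, (h = 3 ∨ h = 4) ∧ fsVec f g = fsVec 1 h) ∨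
      ∃ h : Fin 5, (h = 3 ∨ h = 4) ∧ fsVec f g = fsVec 2 h := by
  decide +kernel

set_option synthInstance.maxSize 4096 in
theorem fs_4a : ∀ x y : W, x ≠ 0 → y ≠ 0 → x ≠ y → ∀ k : ZMod 2 × ZMod 2 × ZMod 2 × ZMod 2,
    (univ.filter (fun i => (fsVec 0 1 i, fsVec 0 2 i, fsVec 0 1 i,
      fsVec 0 1 i + fsVec 0 2 i + fsVec 0 1 i) = k)).card =
    (univ.filter (fun o => (fsLb x 0 o, fsLb y 0 o, fsLb x 0 o, fsLb y 0 o) = k)).card := by
  decide +kernel

set_option synthInstance.maxSize 4096 in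
theorem fs_4b : ∀ x y : W, x ≠ 0 → y ≠ 0 → x ≠ y → ∀ k : ZMod 2 × ZMod 2 × ZMod 2 × ZMod 2,
    (univ.filter (fun i => (fsVec 0 1 i, fsVec 0 2 i, fsVec 0 2 i,
      fsVec 0 1 i + fsVec 0 2 i + fsVec 0 2 i) = k)).card =
    (univ.filter (fun o => (fsLb x 0 o, fsLb y 0 o, fsLb y 0 o, fsLb x 0 o) = k)).card := by
  decide +kernel

set_option synthInstance.maxSize 4096 in
theorem fs_4c : ∀ h : Fin 5, (h = 3 ∨ h = 4) → ∀ x y : W, x ≠ 0 → y ≠ 0 → x ≠ y →
    ∀ k : ZMod 2 × ZMod 2 × ZMod 2 × ZMod 2,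
    (univ.filter (fun i => (fsVec 0 1 i, fsVec 0 2 i, fsVec 1 h i,
      fsVec 0 1 i + fsVec 0 2 i + fsVec 1 h i) = k)).card =
    (univ.filter (fun o => (fsLb x 0 o, fsLb y 0 o, fsLb y 1 o, fsLb x 1 o) = k)).card := by
  decide +kernel

set_option synthInstance.maxSize 4096 in
theorem fs_4d : ∀ h : Fin 5, (h = 3 ∨ h = 4) → ∀ x y : W, x ≠ 0 → y ≠ 0 → x ≠ y →
    ∀ k : ZMod 2 × ZMod 2 × ZMod 2 × ZMod 2,
    (univ.filter (fun i => (fsVec 0 1 i, fsVec 0 2 i, fsVec 2 h i,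
      fsVec 0 1 i + fsVec 0 2 i + fsVec 2 h i) = k)).card =
    (univ.filter (fun o => (fsLb x 0 o, fsLb y 0 o, fsLb x 1 o, fsLb y 1 o) = k)).card := by
  decide +kernel

theorem fs_tr {γ : Type*} [DecidableEq γ] (f : Fin 5 → γ) (π : Equiv.Perm (Fin 5))
    (q : Fin 5 → γ) (hq : ∀ j, f (π j) = q j) (g : Option W → γ)
    (h : ∀ k, (univ.filter (fun i => q i = k)).card = (univ.filter (fun o => g o = k)).card) :
    ∃ ρ : Fin 5 ≃ Option W, ∀ i, g (ρ i) = f i := by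
  obtain ⟨ρ, hρ⟩ := fs_fib q g h
  refine ⟨π.symm.trans ρ, fun i => ?_⟩
  have h1 := hq (π.symm i)
  rw [Equiv.apply_symm_apply] at h1
  rw [Equiv.trans_apply, hρ, h1]

theorem fs_iso4 {p : Fin 4 → Fin 5 → ZMod 2} (hp : ∀ i, Wt2 (p i))
    (hs : p 0 + p 1 + p 2 + p 3 = 0) (h01 : Wt2 (p 0 + p 1)) {x1 y1 x2 y2 : W}
    (hx1 : x1 ≠ 0) (hy1 : y1 ≠ 0) (h1 : x1 ≠ y1) (hx2 : x2 ≠ 0) (hy2 : y2 ≠ 0) (h2 : x2 ≠ y2) :
    ∃ t : ZMod 2, (∃ ρ : Fin 5 ≃ Option W, ∀ i, fsLb x1 0 (ρ i) = p 0 i ∧ fsLb y1 0 (ρ i) = p 1 i ∧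
        fsLb x1 t (ρ i) = p 2 i ∧ fsLb y1 t (ρ i) = p 3 i) ∨
      ∃ ρ : Fin 5 ≃ Option W, ∀ i, fsLb x2 0 (ρ i) = p 0 i ∧ fsLb y2 0 (ρ i) = p 1 i ∧
        fsLb y2 t (ρ i) = p 2 i ∧ fsLb x2 t (ρ i) = p 3 i := by
  have hv : Wt2 (fsVec 0 1 + fsVec 0 2) := by
    have : fsVec 0 1 + fsVec 0 2 = fsVec 1 2 := by decide
    rw [this]
    exact fs_wt2Vec (by decide)
  have z2 : ∀ a : ZMod 2, a + a = 0 := by decide
  have z3 : ∀ a b c d : ZMod 2, a + b + c + d = 0 → d = a + b + c := by decide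
  obtain ⟨π, hπ⟩ := wt2_perm3 (hp 0) (hp 1) h01 (by ext i; exact z2 _)
    (fs_wt2Vec (show (0 : Fin 5) ≠ 1 by decide)) (fs_wt2Vec (show (0 : Fin 5) ≠ 2 by decide)) hv
    (by ext i; exact z2 _)
  obtain ⟨f, g, hfg, hr⟩ := ((hp 2).comp π).fsVec
  have h3 : ∀ i, p 3 (π i) = fsVec 0 1 i + fsVec 0 2 i + fsVec f g i := by
    intro i
    have h4 := z3 _ _ _ _ (congrFun hs (π i))
    rw [h4, (hπ i).1, (hπ i).2.1, ← congrFun hr i]
  have h5 := ((hp 3).comp π).fsCard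
  simp only [h3] at h5
  have hq : ∀ j, (p 0 (π j), p 1 (π j), p 2 (π j), p 3 (π j)) =
      (fsVec 0 1 j, fsVec 0 2 j, fsVec f g j, fsVec 0 1 j + fsVec 0 2 j + fsVec f g j) := by
    intro j
    rw [(hπ j).1, (hπ j).2.1, h3 j, ← congrFun hr j]
  rcases fs_class f g hfg h5 with h6 | h6 | ⟨h, hh, h6⟩ | ⟨h, hh, h6⟩
  · rw [h6] at hq
    obtain ⟨ρ, hρ⟩ := fs_tr (fun i => (p 0 i, p 1 i, p 2 i, p 3 i)) π _ hq _
      (fs_4a x1 y1 hx1 hy1 h1)
    exact ⟨0, Or.inl ⟨ρ, fun i => ⟨congrArg (fun z => z.1) (hρ i),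
      congrArg (fun z => z.2.1) (hρ i), congrArg (fun z => z.2.2.1) (hρ i),
      congrArg (fun z => z.2.2.2) (hρ i)⟩⟩⟩
  · rw [h6] at hq
    obtain ⟨ρ, hρ⟩ := fs_tr (fun i => (p 0 i, p 1 i, p 2 i, p 3 i)) π _ hq _
      (fs_4b x2 y2 hx2 hy2 h2)
    exact ⟨0, Or.inr ⟨ρ, fun i => ⟨congrArg (fun z => z.1) (hρ i),
      congrArg (fun z => z.2.1) (hρ i), congrArg (fun z => z.2.2.1) (hρ i),
      congrArg (fun z => z.2.2.2) (hρ i)⟩⟩⟩
  · rw [h6] at hq
    obtain ⟨ρ, hρ⟩ := fs_tr (fun i => (p 0 i, p 1 i, p 2 i, p 3 i)) π _ hq _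
      (fs_4c h hh x2 y2 hx2 hy2 h2)
    exact ⟨1, Or.inr ⟨ρ, fun i => ⟨congrArg (fun z => z.1) (hρ i),
      congrArg (fun z => z.2.1) (hρ i), congrArg (fun z => z.2.2.1) (hρ i),
      congrArg (fun z => z.2.2.2) (hρ i)⟩⟩⟩
  · rw [h6] at hq
    obtain ⟨ρ, hρ⟩ := fs_tr (fun i => (p 0 i, p 1 i, p 2 i, p 3 i)) π _ hq _
      (fs_4d h hh x1 y1 hx1 hy1 h1)
    exact ⟨1, Or.inl ⟨ρ, fun i => ⟨congrArg (fun z => z.1) (hρ i),
      congrArg (fun z => z.2.1) (hρ i), congrArg (fun z => z.2.2.1) (hρ i),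
      congrArg (fun z => z.2.2.2) (hρ i)⟩⟩⟩

/-- a label off the cycles -/
theorem fs_wt0 : ∀ (s : W) (t : ZMod 2), s ≠ 0 → ∃ a b : W, a ≠ b ∧
    ∀ w, om w s + t = if w = a ∨ w = b then 1 else 0 := by
  decide +kernel

/-- a label on the cycles -/
theorem fs_wt1 : ∀ (s w : W), om w s + nn s + 1 * (1 + nn w) = if w = s then 1 else 0 := by
  decide +kernel

set_option synthInstance.maxSize 4096 in
theorem fs_type : ∀ a b c d : W, a ≠ 0 → b ≠ 0 → c ≠ 0 → d ≠ 0 → a + b + c + d = 0 →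
    (a = b ∧ c = d ∧ a = c) ∨ (a = b ∧ c = d ∧ a ≠ c) ∨ (a = c ∧ b = d ∧ a ≠ b) ∨
      (a = d ∧ c = b ∧ a ≠ c) := by
  decide +kernel

theorem fs_third : ∀ x : W, x ≠ 0 → ∃ w : W, w ≠ 0 ∧ x ≠ w ∧ x + w ≠ x ∧ x + w ≠ 0 := by
  decide +kernel

theorem fs_w : ∀ x y : W, x ≠ 0 → y ≠ 0 → x ≠ y → x + y ≠ 0 ∧ x ≠ x + y ∧ y ≠ x + y ∧
    x + (x + y) = y ∧ y + (x + y) = x := by
  decide +kernel

open scoped Classical

variable {V : Type v} {E : Type u}

theorem fs_legs [Fintype E] {ends : E → Sym2 V} {Q : Set V} {e : Fin 4 → E} {x y : Fin 4 → V}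
    (hL : Legs ends Q e x y) (f : E) : f ∈ Pool.Agent.Helper37.IE.Legs ends Q ↔ ∃ j, e j = f := by
  constructor
  · intro hf
    exact hL.surj f (mem_cut.2 hf)
  · rintro ⟨j, rfl⟩
    exact mem_cut.1 (hL.mem j)

theorem fs_sum_legs [Fintype E] {ends : E → Sym2 V} {Q : Set V} {e : Fin 4 → E}
    {x y : Fin 4 → V} (hL : Legs ends Q e x y) {M : Type*} [AddCommMonoid M] (F : E → M) :
    ∑ f ∈ univ.filter (fun f => f ∈ Pool.Agent.Helper37.IE.Legs ends Q), F f = ∑ j, F (e j) := by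
  have h1 : univ.filter (fun f => f ∈ Pool.Agent.Helper37.IE.Legs ends Q) = univ.image e := by
    ext f
    simp only [Finset.mem_filter, Finset.mem_univ, true_and, Finset.mem_image]
    exact fs_legs hL f
  rw [h1, Finset.sum_image fun a _ b _ h => hL.inj h]

/-- the leg values of a robust flow have sum zero -/
theorem fs_sum0 [Fintype V] [Fintype E] {ends : E → Sym2 V} (hl : ∀ e, ¬ (ends e).IsDiag)
    {Q : Set V} {e : Fin 4 → E} {x y : Fin 4 → V} (hL : Legs ends Q e x y) {b : E → W}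
    (hb : Pool.Agent.Helper37.IE.Good ends Q b) : ∑ j, b (e j) = 0 := by
  obtain ⟨P, _, X, comp, h, hr, h1, h2⟩ := hb
  have h3 : ∑ v ∈ univ.filter (fun v => v ∈ Q), bd ends (rs Xᶜ h) v = 0 := by
    rw [← Finset.sum_fiberwise (univ.filter (fun v => v ∈ Q)) comp]
    apply Finset.sum_eq_zero
    intro p _
    have h4 := hr.bal (fun _ => 1) (fun _ _ _ _ _ => rfl) p
    rw [Finset.filter_filter]
    rw [← h4]
    apply Finset.sum_congr rfl
    intro v _
    rw [one_smul]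
  rw [Pool.Agent.Helper37.IE.sum_bd_set ends hl, fs_sum_legs hL] at h3
  rw [← h3]
  apply Finset.sum_congr rfl
  intro j _
  have h5 : e j ∈ Pool.Agent.Helper37.IE.Legs ends Q := (fs_legs hL _).2 ⟨j, rfl⟩
  have h6 : e j ∈ Xᶜ := fun h => Pool.Agent.Helper37.IE.not_inner_of_legs ends Q _ h5 (hr.sub h)
  unfold rs
  rw [if_pos h6, h2 _ h5]

/-- realization of the labels -/
theorem fs_realize [Fintype V] [Fintype E] {ends : E → Sym2 V} (hl : ∀ e, ¬ (ends e).IsDiag)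
    {Q : Set V} {e : Fin 4 → E} {x y : Fin 4 → V} (hL : Legs ends Q e x y) {b : E → W}
    (hb : Pool.Agent.Helper37.IE.Good ends Q b) (t : Fin 4 → ZMod 2)
    (ht : ∑ j, t j = 0) : ∃ lab : E → Option W → ZMod 2, Lab ends Q lab ∧
      ∀ j, lab (e j) = fsLb (b (e j)) (t j) := by
  obtain ⟨P, _, X, comp, h, hr, h1, h2⟩ := hb
  have hτ0 : ∀ j, (∑ i, if e i = e j then t i else 0) = t j := by
    intro j
    rw [Finset.sum_eq_single j]
    · rw [if_pos rfl]
    · intro i _ hij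
      rw [if_neg fun h => hij (hL.inj h)]
    · intro h
      exact absurd (Finset.mem_univ j) h
  obtain ⟨σ, τ, hσ, hτ, hnz, hX, hleg⟩ := Pool.Agent.Helper37.IE.open_ext ends hl Q X comp h hr h1
    (fun f => ∑ i, if e i = f then t i else 0) (by
      rw [fs_sum_legs hL]
      exact (Finset.sum_congr rfl fun j _ => hτ0 j).trans ht)
  have hxv : ∀ v, bd ends (rs X (fun _ => (1 : ZMod 2))) v = 0 := fun v =>
    bd_rs_eq_zero ends X v (hr.deg v) _ (fun _ _ _ _ _ _ => rfl)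
  refine ⟨fun f o => o.elim (rs X (fun _ => 1) f)
    (fun w => om w (σ f) + τ f + rs X (fun _ => 1) f * (1 + nn w)), ⟨?_, ?_⟩, ?_⟩
  · intro v hv
    ext o
    unfold bd
    rw [Finset.sum_apply]
    cases o with
    | none => exact hxv v
    | some w =>
      change bd ends (fun f => om w (σ f) + τ f + rs X (fun _ => 1) f * (1 + nn w)) v = 0
      rw [bd_add, bd_add, hτ v hv]
      have e1 : bd ends (fun e => om w (σ e)) v = 0 := by
        have := bd_map ends (omHom w) σ v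
        rw [hσ v hv, map_zero] at this
        exact this
      have e2 : bd ends (fun e => rs X (fun _ => (1 : ZMod 2)) e * (1 + nn w)) v = 0 := by
        have : bd ends (fun e => rs X (fun _ => (1 : ZMod 2)) e * (1 + nn w)) v =
            bd ends (rs X (fun _ => (1 : ZMod 2))) v * (1 + nn w) := by
          unfold bd
          rw [Finset.sum_mul]
        rw [this, hxv, zero_mul]
      rw [e1, e2]
      simp
  · intro f v hvf hv
    by_cases hf : f ∈ X
    · have h3 : rs X (fun _ => (1 : ZMod 2)) f = 1 := if_pos hf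
      refine ⟨none, some (σ f), by simp, ?_⟩
      intro o
      cases o with
      | none => simp [h3]
      | some w =>
        change om w (σ f) + τ f + rs X (fun _ => (1 : ZMod 2)) f * (1 + nn w) = _
        rw [h3, hX f hf, fs_wt1]
        simp
    · have h3 : rs X (fun _ => (1 : ZMod 2)) f = 0 := if_neg hf
      obtain ⟨a, c, hac, h4⟩ := fs_wt0 (σ f) (τ f) (hnz f ⟨v, hvf, hv⟩ hf)
      refine ⟨some a, some c, fun h => hac (Option.some.inj h), ?_⟩
      intro o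
      cases o with
      | none => simp [h3]
      | some w =>
        change om w (σ f) + τ f + rs X (fun _ => (1 : ZMod 2)) f * (1 + nn w) = _
        rw [h3, h4]
        simp
  · intro j
    have h5 : e j ∈ Pool.Agent.Helper37.IE.Legs ends Q := (fs_legs hL _).2 ⟨j, rfl⟩
    have h6 : e j ∉ X := fun h => Pool.Agent.Helper37.IE.not_inner_of_legs ends Q _ h5 (hr.sub h)
    have h3 : rs X (fun _ => (1 : ZMod 2)) (e j) = 0 := if_neg h6
    have h7 := hleg _ h5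
    ext o
    cases o with
    | none => exact h3
    | some w =>
      change om w (σ (e j)) + τ (e j) + rs X (fun _ => (1 : ZMod 2)) (e j) * (1 + nn w) =
        om w (b (e j)) + t j
      rw [h3, h7.1, h7.2, h2 _ h5, hτ0]
      simp

/-- realization of labels over `Fin 5`, in a given order of the legs -/
theorem fs_real5 [Fintype V] [Fintype E] {ends : E → Sym2 V} (hl : ∀ e, ¬ (ends e).IsDiag)
    {Q : Set V} {e : Fin 4 → E} {x y : Fin 4 → V} (hL : Legs ends Q e x y) {b : E → W}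
    (hb : Pool.Agent.Helper37.IE.Good ends Q b) (s : Equiv.Perm (Fin 4)) (t : Fin 4 → ZMod 2)
    (ht : ∑ j, t j = 0) (p : Fin 4 → Fin 5 → ZMod 2) (ρ : Fin 5 ≃ Option W)
    (hρ : ∀ j i, fsLb (b (e (s j))) (t j) (ρ i) = p j i) :
    ∃ lab : E → Fin 5 → ZMod 2, Lab ends Q lab ∧ ∀ j, lab (e (s j)) = p j := by
  obtain ⟨lab, h1, h2⟩ := fs_realize hl hL hb (fun j => t (s.symm j)) (by
    rw [← ht]
    exact Equiv.sum_comp s.symm t)
  refine ⟨_, h1.perm ρ, fun j => funext fun i => ?_⟩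
  rw [← hρ j i, h2 (s j), Equiv.symm_apply_apply]

/-- switching -/
theorem fs_sw [Fintype V] [Fintype E] {ends : E → Sym2 V}
    {Q : Set V} {e : Fin 4 → E} {x y : Fin 4 → V} (hL : Legs ends Q e x y) {L : Set (E → W)}
    (hsw : Pool.Agent.Helper37.IE.Switchable ends Q L) {b : E → W} (hb : b ∈ L) {w : W}
    (hw : w ≠ 0) (hbw : ∀ j, b (e j) ≠ w) :
    ∃ j, j ≠ 0 ∧ ∃ b' ∈ L, ∀ i, b' (e i) = if i = 0 ∨ i = j then b (e i) + w else b (e i) := by
  obtain ⟨π, h1, h2⟩ := hsw.sw b hb w hw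
  have h0 : e 0 ∈ Pool.Agent.Helper37.IE.Legs ends Q := (fs_legs hL _).2 ⟨0, rfl⟩
  obtain ⟨h3, h4, h5, h6⟩ := h1 (e 0) h0 (hbw 0)
  obtain ⟨j, hj⟩ := (fs_legs hL _).1 h3
  refine ⟨j, ?_, _, h2 {f | f = e 0 ∨ f = e j} ?_, ?_⟩
  · rintro rfl
    exact h5 hj.symm
  · rintro f (rfl | rfl)
    · exact ⟨h0, hbw 0, Or.inr hj.symm⟩
    · refine ⟨(fs_legs hL _).2 ⟨j, rfl⟩, hbw j, Or.inl ?_⟩
      rw [hj, h6]
  · intro i
    have h7 : e i ∈ {f | f = e 0 ∨ f = e j} ↔ i = 0 ∨ i = j := by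
      constructor
      · rintro (h | h)
        · exact Or.inl (hL.inj h)
        · exact Or.inr (hL.inj h)
      · rintro (rfl | rfl)
        · exact Or.inl rfl
        · exact Or.inr rfl
    by_cases hi : i = 0 ∨ i = j
    · rw [if_pos hi]
      exact if_pos (h7.2 hi)
    · rw [if_neg hi]
      exact if_neg fun h => hi (h7.1 h)

/-- the first alternative -/
theorem fs_alt1 [Fintype V] [Fintype E] {ends : E → Sym2 V} (hl : ∀ e, ¬ (ends e).IsDiag)
    {Q : Set V} {e : Fin 4 → E} {x y : Fin 4 → V} (hL : Legs ends Q e x y) {b b' : E → W}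
    (hb : Pool.Agent.Helper37.IE.Good ends Q b) (hb' : Pool.Agent.Helper37.IE.Good ends Q b')
    (s : Equiv.Perm (Fin 4)) {c c1 c2 : W} (hc : c ≠ 0) (hc1 : c1 ≠ 0) (hc2 : c2 ≠ 0)
    (h12 : c1 ≠ c2) (hA : ∀ j, b (e j) = c) (h0 : b' (e (s 0)) = c1) (h1 : b' (e (s 1)) = c1)
    (h2 : b' (e (s 2)) = c2) (h3 : b' (e (s 3)) = c2) (p p' : Fin 5 → ZMod 2) (hp : Wt2 p)
    (hp' : Wt2 p') : ∃ lab : E → Fin 5 → ZMod 2, Lab ends Q lab ∧
        lab (e (s 0)) = p ∧ lab (e (s 1)) = p ∧ lab (e (s 2)) = p' ∧ lab (e (s 3)) = p' := by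
  by_cases hpp : p = p'
  · subst hpp
    obtain ⟨ρ, hρ⟩ := fs_isoA hc hp
    obtain ⟨lab, h4, h5⟩ := fs_real5 hl hL hb s (fun _ => 0) (by simp) (fun _ => p) ρ
      (fun j i => by rw [hA]; exact hρ i)
    exact ⟨lab, h4, h5 0, h5 1, h5 2, h5 3⟩
  · by_cases hm : ∃ i, p i = 1 ∧ p' i = 1
    · have hcard : (univ.filter (fun i => p i + p' i = 1)).card = 2 := by
        obtain ⟨a, c, hac, rfl⟩ := hp.fsVec
        obtain ⟨a', c', hac', rfl⟩ := hp'.fsVec
        exact fs_meet a c a' c' hac hac' hpp hm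
      obtain ⟨ρ, hρ⟩ := fs_isoE hc1 hc2 h12 hp hp' hcard
      obtain ⟨lab, h4, h5⟩ := fs_real5 hl hL hb' s (fun _ => 0) (by simp) ![p, p, p', p'] ρ (by
        intro j i
        fin_cases j
        · change fsLb (b' (e (s 0))) 0 (ρ i) = p i
          rw [h0]
          exact (hρ i).1
        · change fsLb (b' (e (s 1))) 0 (ρ i) = p i
          rw [h1]
          exact (hρ i).1
        · change fsLb (b' (e (s 2))) 0 (ρ i) = p' i
          rw [h2]
          exact (hρ i).2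
        · change fsLb (b' (e (s 3))) 0 (ρ i) = p' i
          rw [h3]
          exact (hρ i).2)
      exact ⟨lab, h4, h5 0, h5 1, h5 2, h5 3⟩
    · obtain ⟨ρ, hρ⟩ := fs_isoD hc hp hp' (fun i h => hm ⟨i, h⟩)
      obtain ⟨lab, h4, h5⟩ := fs_real5 hl hL hb s ![0, 0, 1, 1] (by
        rw [Fin.sum_univ_four]
        decide) ![p, p, p', p'] ρ (by
        intro j i
        rw [hA]
        fin_cases j
        · exact (hρ i).1
        · exact (hρ i).1
        · exact (hρ i).2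
        · exact (hρ i).2)
      exact ⟨lab, h4, h5 0, h5 1, h5 2, h5 3⟩

/-- the second alternative -/
theorem fs_alt2 [Fintype V] [Fintype E] {ends : E → Sym2 V} (hl : ∀ e, ¬ (ends e).IsDiag)
    {Q : Set V} {e : Fin 4 → E} {x y : Fin 4 → V} (hL : Legs ends Q e x y) {b b' : E → W}
    (hb : Pool.Agent.Helper37.IE.Good ends Q b) (hb' : Pool.Agent.Helper37.IE.Good ends Q b')
    (s : Equiv.Perm (Fin 4)) {x1 y1 x2 y2 : W} (hx1 : x1 ≠ 0) (hy1 : y1 ≠ 0) (hx2 : x2 ≠ 0)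
    (hy2 : y2 ≠ 0) (h1 : x1 ≠ y1) (h2 : x2 ≠ y2)
    (hb0 : b (e (s 0)) = x1) (hb1 : b (e (s 1)) = y1) (hb2 : b (e (s 2)) = x1)
    (hb3 : b (e (s 3)) = y1) (hc0 : b' (e (s 0)) = x2) (hc1 : b' (e (s 1)) = y2)
    (hc2 : b' (e (s 2)) = y2) (hc3 : b' (e (s 3)) = x2)
    (p : Fin 4 → Fin 5 → ZMod 2) (hp : ∀ i, Wt2 (p i)) (hs : p 0 + p 1 + p 2 + p 3 = 0)
    (h01 : Wt2 (p 0 + p 1)) : ∃ lab : E → Fin 5 → ZMod 2, Lab ends Q lab ∧
        ∀ i, lab (e (s i)) = p i := by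
  have ht : ∀ t : ZMod 2, ∑ j, (![0, 0, t, t] : Fin 4 → ZMod 2) j = 0 := by decide
  obtain ⟨t, ⟨ρ, hρ⟩ | ⟨ρ, hρ⟩⟩ := fs_iso4 hp hs h01 hx1 hy1 h1 hx2 hy2 h2
  · refine fs_real5 hl hL hb s ![0, 0, t, t] (ht t) p ρ ?_
    intro j i
    fin_cases j
    · change fsLb (b (e (s 0))) 0 (ρ i) = p 0 i
      rw [hb0]
      exact (hρ i).1
    · change fsLb (b (e (s 1))) 0 (ρ i) = p 1 i
      rw [hb1]
      exact (hρ i).2.1
    · change fsLb (b (e (s 2))) t (ρ i) = p 2 i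
      rw [hb2]
      exact (hρ i).2.2.1
    · change fsLb (b (e (s 3))) t (ρ i) = p 3 i
      rw [hb3]
      exact (hρ i).2.2.2
  · refine fs_real5 hl hL hb' s ![0, 0, t, t] (ht t) p ρ ?_
    intro j i
    fin_cases j
    · change fsLb (b' (e (s 0))) 0 (ρ i) = p 0 i
      rw [hc0]
      exact (hρ i).1
    · change fsLb (b' (e (s 1))) 0 (ρ i) = p 1 i
      rw [hc1]
      exact (hρ i).2.1
    · change fsLb (b' (e (s 2))) t (ρ i) = p 2 i
      rw [hc2]
      exact (hρ i).2.2.1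
    · change fsLb (b' (e (s 3))) t (ρ i) = p 3 i
      rw [hc3]
      exact (hρ i).2.2.2

theorem four_states [Fintype V] [Fintype E] {ends : E → Sym2 V} (hl : ∀ e, ¬ (ends e).IsDiag)
    {Q : Set V} {e : Fin 4 → E} {x y : Fin 4 → V} (hL : Legs ends Q e x y)
    (hF : Pool.Agent.Helper37.IE.Fine ends Q) :
    ∃ s : Equiv.Perm (Fin 4),
      (∀ p p' : Fin 5 → ZMod 2, Wt2 p → Wt2 p' → ∃ lab : E → Fin 5 → ZMod 2, Lab ends Q lab ∧
        lab (e (s 0)) = p ∧ lab (e (s 1)) = p ∧ lab (e (s 2)) = p' ∧ lab (e (s 3)) = p') ∨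
      (∀ p : Fin 4 → Fin 5 → ZMod 2, (∀ i, Wt2 (p i)) → p 0 + p 1 + p 2 + p 3 = 0 →
        Wt2 (p 0 + p 1) → ∃ lab : E → Fin 5 → ZMod 2, Lab ends Q lab ∧
          ∀ i, lab (e (s i)) = p i) := by
  obtain ⟨L, ⟨b, hb⟩, hsw, hgood⟩ := hF
  have hnz : ∀ b ∈ L, ∀ j, b (e j) ≠ 0 := fun b hb j =>
    hsw.nz b hb _ ((fs_legs hL _).2 ⟨j, rfl⟩)
  have hsum := fs_sum0 hl hL (hgood b hb)
  rw [Fin.sum_univ_four] at hsum
  -- the type of b
  have htype : (∀ j, b (e j) = b (e 0)) ∨ ∃ s0 : Equiv.Perm (Fin 4), s0 0 = 0 ∧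
      b (e (s0 1)) = b (e 0) ∧ b (e (s0 2)) = b (e (s0 3)) ∧ b (e 0) ≠ b (e (s0 2)) := by
    rcases fs_type _ _ _ _ (hnz b hb 0) (hnz b hb 1) (hnz b hb 2) (hnz b hb 3) hsum with
      ⟨h1, h2, h3⟩ | ⟨h1, h2, h3⟩ | ⟨h1, h2, h3⟩ | ⟨h1, h2, h3⟩
    · left
      intro j
      fin_cases j
      · rfl
      · exact h1.symm
      · exact h3.symm
      · exact (h3.trans h2).symm
    · exact Or.inr ⟨Equiv.refl _, rfl, h1.symm, h2, h3⟩
    · refine Or.inr ⟨Equiv.swap 1 2, by decide, ?_, ?_, ?_⟩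
      · rw [Equiv.swap_apply_left]
        exact h1.symm
      · have : Equiv.swap (1 : Fin 4) 2 3 = 3 := by decide
        rw [Equiv.swap_apply_right, this]
        exact h2
      · rw [Equiv.swap_apply_right]
        exact h3
    · refine Or.inr ⟨Equiv.swap 1 3, by decide, ?_, ?_, ?_⟩
      · rw [Equiv.swap_apply_left]
        exact h1.symm
      · have : Equiv.swap (1 : Fin 4) 3 2 = 2 := by decide
        rw [Equiv.swap_apply_right, this]
        exact h2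
      · have : Equiv.swap (1 : Fin 4) 3 2 = 2 := by decide
        rw [this]
        exact h3
  rcases htype with hA | ⟨s0, hs0, h1, h2, h3⟩
  · -- type A
    obtain ⟨w, hw, hxw, hx1, hx2⟩ := fs_third (b (e 0)) (hnz b hb 0)
    obtain ⟨j, hj, b', hb', hv⟩ := fs_sw hL hsw hb hw (fun j => by rw [hA j]; exact hxw)
    have hsj : ∀ i : Fin 4, i ≠ 0 → Equiv.swap (1 : Fin 4) i 0 = 0 := by decide
    have hsk : ∀ i : Fin 4, i ≠ 0 → Equiv.swap (1 : Fin 4) i 2 ≠ 0 ∧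
        Equiv.swap (1 : Fin 4) i 2 ≠ i ∧ Equiv.swap (1 : Fin 4) i 3 ≠ 0 ∧
        Equiv.swap (1 : Fin 4) i 3 ≠ i := by decide
    obtain ⟨k1, k2, k3, k4⟩ := hsk j hj
    refine ⟨Equiv.swap 1 j, Or.inl fun p p' hp hp' => ?_⟩
    refine fs_alt1 hl hL (hgood b hb) (hgood b' hb') (Equiv.swap 1 j) (c := b (e 0))
      (c1 := b (e 0) + w) (c2 := b (e 0)) (hnz b hb 0) hx2 (hnz b hb 0) hx1 hA ?_ ?_ ?_ ?_ p p'
      hp hp'
    · rw [hsj j hj, hv, if_pos (Or.inl rfl)]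
    · rw [Equiv.swap_apply_left, hv, if_pos (Or.inr rfl), hA]
    · rw [hv, if_neg (by rintro (h | h) <;> contradiction), hA]
    · rw [hv, if_neg (by rintro (h | h) <;> contradiction), hA]
  · -- type E
    have hx0 := hnz b hb 0
    have hy0 := hnz b hb (s0 2)
    obtain ⟨hw, hxw, hyw, e1, e2⟩ := fs_w _ _ hx0 hy0 h3
    have hcases : ∀ i : Fin 4, i = 0 ∨ i = s0 1 ∨ i = s0 2 ∨ i = s0 3 := by
      intro i
      obtain ⟨k, rfl⟩ := s0.surjective i
      fin_cases k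
      · exact Or.inl hs0
      · exact Or.inr (Or.inl rfl)
      · exact Or.inr (Or.inr (Or.inl rfl))
      · exact Or.inr (Or.inr (Or.inr rfl))
    obtain ⟨j, hj, b', hb', hv⟩ := fs_sw hL hsw hb hw (fun i => by
      rcases hcases i with rfl | rfl | rfl | rfl
      · exact hxw
      · rw [h1]
        exact hxw
      · exact hyw
      · rw [← h2]
        exact hyw)
    have hne : ∀ i k : Fin 4, i ≠ k → s0 i ≠ s0 k := fun i k h h' => h (s0.injective h')
    have n01 : (0 : Fin 4) ≠ s0 1 := by rw [← hs0]; exact hne _ _ (by decide)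
    have n02 : (0 : Fin 4) ≠ s0 2 := by rw [← hs0]; exact hne _ _ (by decide)
    have n03 : (0 : Fin 4) ≠ s0 3 := by rw [← hs0]; exact hne _ _ (by decide)
    have n12 : s0 1 ≠ s0 2 := hne _ _ (by decide)
    have n13 : s0 1 ≠ s0 3 := hne _ _ (by decide)
    have n23 : s0 2 ≠ s0 3 := hne _ _ (by decide)
    have v0 : b' (e 0) = b (e (s0 2)) := by
      rw [hv, if_pos (Or.inl rfl)]
      exact e1
    rcases hcases j with rfl | rfl | rfl | rfl
    · exact absurd rfl hj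
    · -- j = s0 1 : type A
      have v1 : b' (e (s0 1)) = b (e (s0 2)) := by
        rw [hv, if_pos (Or.inr rfl), h1]
        exact e1
      have v2 : b' (e (s0 2)) = b (e (s0 2)) := by
        rw [hv, if_neg]
        rintro (h | h)
        · exact n02 h.symm
        · exact n12 h.symm
      have v3 : b' (e (s0 3)) = b (e (s0 2)) := by
        rw [hv, if_neg, h2]
        rintro (h | h)
        · exact n03 h.symm
        · exact n13 h.symm
      refine ⟨s0, Or.inl fun p p' hp hp' => ?_⟩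
      refine fs_alt1 hl hL (hgood b' hb') (hgood b hb) s0 (c := b (e (s0 2)))
        (c1 := b (e 0)) (c2 := b (e (s0 2))) hy0 hx0 hy0 h3 ?_ ?_ h1 rfl h2.symm p p' hp hp'
      · intro i
        rcases hcases i with rfl | rfl | rfl | rfl
        · exact v0
        · exact v1
        · exact v2
        · exact v3
      · rw [hs0]
    · -- j = s0 2 : types E(0, s0 1) and E(0, s0 3)
      have v1 : b' (e (s0 1)) = b (e 0) := by
        rw [hv, if_neg, h1]
        rintro (h | h)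
        · exact n01 h.symm
        · exact n12 h
      have v2 : b' (e (s0 2)) = b (e 0) := by
        rw [hv, if_pos (Or.inr rfl)]
        exact e2
      have v3 : b' (e (s0 3)) = b (e (s0 2)) := by
        rw [hv, if_neg, h2]
        rintro (h | h)
        · exact n03 h.symm
        · exact n23 h.symm
      refine ⟨(Equiv.swap 1 2).trans s0, Or.inr fun p hp hs h01 => ?_⟩
      have a0 : ((Equiv.swap 1 2).trans s0) 0 = 0 := by
        rw [Equiv.trans_apply]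
        have : Equiv.swap (1 : Fin 4) 2 0 = 0 := by decide
        rw [this, hs0]
      have a1 : ((Equiv.swap 1 2).trans s0) 1 = s0 2 := by
        rw [Equiv.trans_apply, Equiv.swap_apply_left]
      have a2 : ((Equiv.swap 1 2).trans s0) 2 = s0 1 := by
        rw [Equiv.trans_apply, Equiv.swap_apply_right]
      have a3 : ((Equiv.swap 1 2).trans s0) 3 = s0 3 := by
        rw [Equiv.trans_apply]
        have : Equiv.swap (1 : Fin 4) 2 3 = 3 := by decide
        rw [this]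
      refine fs_alt2 hl hL (hgood b hb) (hgood b' hb') ((Equiv.swap 1 2).trans s0)
        (x1 := b (e 0)) (y1 := b (e (s0 2))) (x2 := b (e (s0 2))) (y2 := b (e 0))
        hx0 hy0 hy0 hx0 h3 h3.symm ?_ ?_ ?_ ?_ ?_ ?_ ?_ ?_ p hp hs h01
      · rw [a0]
      · rw [a1]
      · rw [a2, h1]
      · rw [a3, h2]
      · rw [a0, v0]
      · rw [a1, v2]
      · rw [a2, v1]
      · rw [a3, v3]
    · -- j = s0 3 : types E(0, s0 1) and E(0, s0 2)
      have v1 : b' (e (s0 1)) = b (e 0) := by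
        rw [hv, if_neg, h1]
        rintro (h | h)
        · exact n01 h.symm
        · exact n13 h
      have v2 : b' (e (s0 2)) = b (e (s0 2)) := by
        rw [hv, if_neg]
        rintro (h | h)
        · exact n02 h.symm
        · exact n23 h
      have v3 : b' (e (s0 3)) = b (e 0) := by
        rw [hv, if_pos (Or.inr rfl), ← h2]
        exact e2
      have hc : ∃ c : Equiv.Perm (Fin 4), c 0 = 0 ∧ c 1 = 3 ∧ c 2 = 1 ∧ c 3 = 2 := by decide
      obtain ⟨c, c0, c1, c2, c3⟩ := hc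
      refine ⟨c.trans s0, Or.inr fun p hp hs h01 => ?_⟩
      refine fs_alt2 hl hL (hgood b hb) (hgood b' hb') (c.trans s0)
        (x1 := b (e 0)) (y1 := b (e (s0 2))) (x2 := b (e (s0 2))) (y2 := b (e 0))
        hx0 hy0 hy0 hx0 h3 h3.symm ?_ ?_ ?_ ?_ ?_ ?_ ?_ ?_ p hp hs h01
      · rw [Equiv.trans_apply, c0, hs0]
      · rw [Equiv.trans_apply, c1, h2]
      · rw [Equiv.trans_apply, c2, h1]
      · rw [Equiv.trans_apply, c3]
      · rw [Equiv.trans_apply, c0, hs0, v0]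
      · rw [Equiv.trans_apply, c1, v3]
      · rw [Equiv.trans_apply, c2, v1]
      · rw [Equiv.trans_apply, c3, v2]

end Pool.Agent.Helper50.Outer
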