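import Mathlib
import Pool.Agent.Helper50.Outer.Labels

namespace Pool.Agent.Helper50.Outer

open Finset Pool.Agent.Helper49.CDC
open scoped Classical

universe u v

variable {V : Type v} {E : Type u}

/-- the induction hypothesis: the problem is solved for all graphs with fewer edges -/
def IHyp (V : Type v) (E : Type u) [Fintype E] : Prop :=
  ∀ (E' : Type u) [Fintype E'] (ends' : E' → Sym2 V), Fintype.card E' < Fintype.card E →
      Good ends' → Q1P ends'

theorem L5_self (x : Fin 5 → ZMod 2) : x + x = 0 := by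
  ext i
  simp only [Pi.add_apply, Pi.zero_apply]
  exact Z_add_self _

/-- the ends in `A` of the edges leaving `A` -/
theorem dl_end [Fintype E] {ends : E → Sym2 V} (hG : Good ends) {A : Set V} {k : ℕ}
    {e : Fin k → E} {x y : Fin k → V} (hL : Legs ends A e x y) (i0 : Fin k) :
    (cut ends (({x i0} : Set V) ∩ A)).card = 3 := by
  have h1 : (({x i0} : Set V) ∩ A) = {x i0} := by
    ext v
    simp only [Set.mem_inter_iff, Set.mem_singleton_iff]
    constructor
    · exact fun h => h.1
    · rintro rfl
      exact ⟨rfl, hL.hx i0⟩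
  rw [h1, cut_singleton hG.loopless]
  rcases hG.deg (x i0) with h | h
  · rw [Finset.card_eq_zero] at h
    have : e i0 ∈ dl ends (x i0) := by rw [mem_dl, hL.hends]; simp
    rw [h] at this
    simp at this
  · exact h

/-- one side of a cut with two edges -/
theorem side2 [Finite V] [Fintype E] {ends : E → Sym2 V} (hG : Good ends)
    {A : Set V} {e : Fin 2 → E} {x y : Fin 2 → V} (hL : Legs ends A e x y)
    (IH : IHyp V E) (C : Set E) (hC : IsCycle ends C ∨ C = ∅) (hCA : ∀ f ∈ C, f ∈ insd ends A) :
    ∃ lab : E → Fin 5 → ZMod 2, Lab ends A lab ∧ (∀ f ∈ C, lab f 0 = 1) ∧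
      lab (e 0) = lab (e 1) := by
  have hx : x 0 ≠ x 1 := by
    intro hx
    have key : ∀ T : Set V, (∀ i, x i ∈ T) → (cut ends (T ∩ A)).card = 3 → False := by
      intro T h5 h1
      have h2 := hG.bridge ((T ∩ A) ∪ Aᶜ)
      rw [card_cut_inter hL] at h1
      rw [card_cut_union hL] at h2
      rw [Finset.filter_true_of_mem (fun i _ => h5 i), Finset.card_univ, Fintype.card_fin] at h1
      rw [Finset.filter_false_of_mem (fun i _ h => h (h5 i)), Finset.card_empty] at h2
      omega
    apply key {x 0} _ (dl_end hG hL 0)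
    intro i
    fin_cases i
    · simp
    · simp [← hx]
  obtain ⟨lab, μ, h1, h2, h3, -, -⟩ := gadget hG hL (Γ := Fin 1) (fun _ => s(x 0, x 1))
    (fun _ => 0) (by
      intro j v hv
      rw [Sym2.mem_iff]
      constructor
      · rintro (rfl | rfl)
        · exact ⟨0, by omega, rfl⟩
        · exact ⟨1, by omega, rfl⟩
      · rintro ⟨i, -, rfl⟩
        fin_cases i
        · exact Or.inl rfl
        · exact Or.inr rfl) (by
      intro i i' _ h
      fin_cases i <;> fin_cases i' <;> first | rfl | exact absurd h hx | exact absurd h.symm hx)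
    (by
      intro _
      simpa using hx) (by
      intro v hv
      left
      rw [Finset.card_eq_zero]
      ext j
      rw [mem_dl, Sym2.mem_iff]
      simp only [Finset.notMem_empty, iff_false]
      rintro (rfl | rfl)
      · exact hv (hL.hx 0)
      · exact hv (hL.hx 1)) (by
      intro T h
      have h1 := hG.bridge (T ∩ A)
      have h2 := hG.bridge ((T ∩ A) ∪ Aᶜ)
      rw [card_cut_inter hL] at h1
      rw [card_cut_union hL] at h2
      have h3 : (cut (fun _ : Fin 1 => s(x 0, x 1)) T).card =
          if (x 0 ∈ T ↔ x 1 ∈ T) then 0 else 1 := by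
        split_ifs with h4
        · rw [Finset.card_eq_zero]
          ext j
          rw [mem_cut_of (ends := fun _ : Fin 1 => s(x 0, x 1)) (a := x 0) (b := x 1) rfl]
          simp [h4]
        · have : cut (fun _ : Fin 1 => s(x 0, x 1)) T = univ := by
            ext j
            rw [mem_cut_of (ends := fun _ : Fin 1 => s(x 0, x 1)) (a := x 0) (b := x 1) rfl]
            simp only [h4, not_false_eq_true, Finset.mem_univ]
          rw [this]
          simp
      rw [h3] at h
      rw [Finset.card_filter, Fin.sum_univ_two] at h1 h2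
      by_cases h5 : x 0 ∈ T <;> by_cases h6 : x 1 ∈ T <;>
        simp only [h5, h6, iff_true, iff_false, not_true_eq_false, not_false_eq_true, if_true,
          if_false] at h h1 h2 <;> omega)
    (by simp; omega) IH C hC hCA
  exact ⟨lab, h1, h2, by rw [h3, h3]⟩

/-- one side of a cut with zero or three edges -/
theorem side3 [Finite V] [Fintype E] {ends : E → Sym2 V} (hG : Good ends)
    {A : Set V} {k : ℕ} (hk : k = 0 ∨ k = 3) {e : Fin k → E} {x y : Fin k → V}
    (hL : Legs ends A e x y) (hin : (insd ends Aᶜ).Nonempty)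
    (IH : IHyp V E) (C : Set E) (hC : IsCycle ends C ∨ C = ∅) (hCA : ∀ f ∈ C, f ∈ insd ends A) :
    ∃ lab : E → Fin 5 → ZMod 2, Lab ends A lab ∧ (∀ f ∈ C, lab f 0 = 1) ∧
      ∑ i, lab (e i) = 0 := by
  obtain ⟨f0, hf0⟩ := hin
  obtain ⟨b0, c0, hb0⟩ := ends_rep ends f0
  have hb : b0 ∉ A := ((mem_insd_of hb0).1 hf0).1
  have hne : ∀ i, x i ≠ b0 := by
    rintro i rfl
    exact hb (hL.hx i)
  have hdl : dl (fun i => s(x i, b0)) b0 = univ := by
    ext j
    rw [mem_dl]
    simp
  obtain ⟨lab, μ, h1, h2, h3, h4, h5⟩ := gadget hG hL (Γ := Fin k) (fun i => s(x i, b0))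
    (fun i => i) (by
      intro j v hv
      rw [Sym2.mem_iff]
      constructor
      · rintro (rfl | rfl)
        · exact ⟨j, rfl, rfl⟩
        · exact absurd hv hb
      · rintro ⟨i, rfl, rfl⟩
        exact Or.inl rfl) (by
      intro i i' h _
      exact h)
    (by
      intro i
      simpa using hne i) (by
      intro v hv
      by_cases hvb : v = b0
      · subst hvb
        rw [hdl]
        simpa using hk
      · left
        rw [Finset.card_eq_zero]
        ext j
        rw [mem_dl, Sym2.mem_iff]
        simp only [Finset.notMem_empty, iff_false]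
        rintro (rfl | rfl)
        · exact hv (hL.hx j)
        · exact hvb rfl) (by
      intro T
      by_cases hT : b0 ∈ T
      · have h6 := hG.bridge ((T ∩ A) ∪ Aᶜ)
        rw [card_cut_union hL] at h6
        have h7 : cut (fun i => s(x i, b0)) T = univ.filter (fun i => x i ∉ T) := by
          ext j
          rw [mem_cut_of (ends := fun i => s(x i, b0)) (a := x j) (b := b0) rfl]
          simp [hT]
        rw [h7]
        exact h6
      · have h6 := hG.bridge (T ∩ A)
        rw [card_cut_inter hL] at h6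
        have h7 : cut (fun i => s(x i, b0)) T = univ.filter (fun i => x i ∈ T) := by
          ext j
          rw [mem_cut_of (ends := fun i => s(x i, b0)) (a := x j) (b := b0) rfl]
          simp [hT]
        rw [h7]
        exact h6)
    (by
      have : 0 < (insd ends Aᶜ).card := Finset.card_pos.2 ⟨f0, hf0⟩
      simp only [Fintype.card_fin]
      omega) IH C hC hCA
  refine ⟨lab, h1, h2, ?_⟩
  have h6 := h5 b0 hb
  rw [bd_dl, hdl] at h6
  rw [← h6]
  exact Finset.sum_congr rfl (fun i _ => h3 i)

/-- cuts with at most three edges off the cycle are reducible -/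
theorem reduce_small [Finite V] [Fintype E] {ends : E → Sym2 V} (hG : Good ends) (IH : IHyp V E)
    (C : Set E) (hC : IsCycle ends C) (A : Set V) (hCA : ∀ f ∈ C, f ∈ insd ends A)
    (hcard : (cut ends A).card < 4) (hin : (insd ends Aᶜ).Nonempty) :
    ∃ lab : E → Fin 5 → ZMod 2, Lab ends Set.univ lab ∧ ∀ f ∈ C, lab f 0 = 1 := by
  have hinA : (insd ends Aᶜᶜ).Nonempty := by
    obtain ⟨n, w, f, hn, hw, hf, he, hr⟩ := hC
    refine ⟨f 0, ?_⟩
    rw [compl_compl]
    exact hCA _ (by rw [← hr]; exact ⟨0, rfl⟩)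
  obtain ⟨e, x, y, hL⟩ := exists_legs ends A rfl
  have hLc := hL.compl
  have hk : (cut ends A).card = 2 ∨ ((cut ends A).card = 0 ∨ (cut ends A).card = 3) := by
    have := hG.bridge A
    omega
  generalize (cut ends A).card = k at *
  rcases hk with rfl | hk
  · obtain ⟨l1, h1, h2, h3⟩ := side2 hG hL IH C (Or.inl hC) hCA
    obtain ⟨l2, h4, -, h5⟩ := side2 hG hLc IH ∅ (Or.inr rfl) (fun f hf => absurd hf (by simp))
    obtain ⟨π, hπ⟩ := wt2_perm (h4.wt (e 0) (y 0) (by rw [hL.hends]; simp) (hL.hy 0))
      (h1.wt (e 0) (x 0) (by rw [hL.hends]; simp) (hL.hx 0))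
    obtain ⟨lab, h6, h7⟩ := glue h1 (h4.perm π) (by
      intro f hf
      obtain ⟨i, rfl⟩ := hL.surj f hf
      fin_cases i
      · ext j
        exact (hπ j).symm
      · ext j
        have := (hπ j).symm
        rw [h3, h5] at this
        exact this)
    exact ⟨lab, h6, fun f hf => by rw [h7 f (hCA f hf)]; exact h2 f hf⟩
  · obtain ⟨l1, h1, h2, h3⟩ := side3 hG hk hL hin IH C (Or.inl hC) hCA
    obtain ⟨l2, h4, -, h5⟩ := side3 hG hk hLc hinA IH ∅ (Or.inr rfl)
      (fun f hf => absurd hf (by simp))
    have hπ : ∃ π : Equiv.Perm (Fin 5), ∀ i j, l2 (e i) (π j) = l1 (e i) j := by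
      rcases hk with rfl | rfl
      · exact ⟨1, fun i => i.elim0⟩
      · have hw1 : ∀ i, Wt2 (l1 (e i)) := fun i =>
          h1.wt (e i) (x i) (by rw [hL.hends]; simp) (hL.hx i)
        have hw2 : ∀ i, Wt2 (l2 (e i)) := fun i =>
          h4.wt (e i) (y i) (by rw [hL.hends]; simp) (hL.hy i)
        rw [Fin.sum_univ_three] at h3 h5
        obtain ⟨π, hπ⟩ := wt2_perm3 (hw2 0) (hw2 1) (hw2 2) h5 (hw1 0) (hw1 1) (hw1 2) h3
        refine ⟨π, ?_⟩
        intro i j
        fin_cases i
        · exact (hπ j).1
        · exact (hπ j).2.1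
        · exact (hπ j).2.2
    obtain ⟨π, hπ⟩ := hπ
    obtain ⟨lab, h6, h7⟩ := glue h1 (h4.perm π) (by
      intro f hf
      obtain ⟨i, rfl⟩ := hL.surj f hf
      ext j
      exact (hπ i j).symm)
    exact ⟨lab, h6, fun f hf => by rw [h7 f (hCA f hf)]; exact h2 f hf⟩

end Pool.Agent.Helper50.Outer
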