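import Mathlib
import Pool.Agent.Helper50.Outer.Small

namespace Pool.Agent.Helper50.Outer

open Finset Pool.Agent.Helper49.CDC
open scoped Classical

universe u v

variable {V : Type v} {E : Type u}

theorem card_cut_pairs {n : ℕ} (a b : Fin n → V) (T : Set V) :
    (cut (fun j => s(a j, b j)) T).card = ∑ j, if (a j ∈ T ↔ b j ∈ T) then 0 else 1 := by
  have h1 : cut (fun j => s(a j, b j)) T = univ.filter (fun j => ¬ (a j ∈ T ↔ b j ∈ T)) := by
    ext j
    rw [mem_cut_of (ends := fun j => s(a j, b j)) (a := a j) (b := b j) rfl]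
    simp
  rw [h1, Finset.card_filter]
  apply Finset.sum_congr rfl
  intro j _
  rw [ite_not]

theorem card_dl_pairs {n : ℕ} (a b : Fin n → V) (v : V) :
    (dl (fun j => s(a j, b j)) v).card = ∑ j, if (v = a j ∨ v = b j) then 1 else 0 := by
  have h1 : dl (fun j => s(a j, b j)) v = univ.filter (fun j => v = a j ∨ v = b j) := by
    ext j
    rw [mem_dl, Sym2.mem_iff]
    simp
  rw [h1, Finset.card_filter]

theorem bd_cycle [Fintype E] {ends : E → Sym2 V} {C : Set E} (hC : IsCycle ends C) (v : V) :
    bd ends (fun e => if e ∈ C then (1 : ZMod 2) else 0) v = 0 := by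
  unfold bd
  rw [← Finset.sum_filter, Finset.filter_filter]
  by_cases hv : v ∈ verts ends C
  · have h1 := cycle_two hC v hv
    rw [Finset.sum_const, h1]
    decide
  · apply Finset.sum_eq_zero
    intro e he
    simp only [Finset.mem_filter, Finset.mem_univ, true_and] at he
    exact absurd ⟨e, he.2, he.1⟩ hv

/-- a cycle inside `A` lies on one side of a set which cuts at most one edge of `A` -/
theorem cycle_side [Finite V] [Fintype E] {ends : E → Sym2 V} (hl : ∀ e, ¬ (ends e).IsDiag)
    {C : Set E} (hC : IsCycle ends C) {A : Set V} (hCA : ∀ f ∈ C, f ∈ insd ends A) (T : Set V)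
    (h : (cut ends T ∩ insd ends A).card ≤ 1) :
    (∀ f ∈ C, f ∈ insd ends (T ∩ A)) ∨ (∀ f ∈ C, f ∈ insd ends (((T ∩ A) ∪ Aᶜ)ᶜ)) := by
  have := Fintype.ofFinite V
  have h1 := sum_bd_cut Z_add_self hl (fun e => if e ∈ C then (1 : ZMod 2) else 0) T
  rw [Finset.sum_eq_zero (fun v _ => bd_cycle hC v), ← Finset.sum_filter] at h1
  have h2 : ((cut ends T).filter (fun e => e ∈ C)).card ≤ 1 := by
    refine le_trans (Finset.card_le_card ?_) h
    intro f hf
    rw [Finset.mem_filter] at hf
    exact Finset.mem_inter.2 ⟨hf.1, hCA f hf.2⟩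
  have h3 : (cut ends T).filter (fun e => e ∈ C) = ∅ := by
    by_contra h4
    have h5 : ((cut ends T).filter (fun e => e ∈ C)).card = 1 := by
      have := Finset.card_pos.2 (Finset.nonempty_iff_ne_empty.2 h4)
      omega
    rw [Finset.sum_const, h5] at h1
    revert h1
    decide
  have h4 : ∀ e ∈ C, ∀ u w, ends e = s(u, w) → (u ∈ T ↔ w ∈ T) := by
    intro e he u w hew
    by_contra h5
    have : e ∈ (cut ends T).filter (fun e => e ∈ C) := by
      rw [Finset.mem_filter]
      exact ⟨(mem_cut_of hew).2 h5, he⟩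
    rw [h3] at this
    simp at this
  obtain ⟨c, hc⟩ := cycle_const hC (fun v => if v ∈ T then 1 else 0) (by
    intro e he u w hew
    have := h4 e he u w hew
    by_cases hu : u ∈ T
    · simp [hu, this.1 hu]
    · have hw : w ∉ T := fun h => hu (this.2 h)
      simp [hu, hw])
  by_cases hc1 : c = 1
  · left
    intro f hf
    rw [mem_insd]
    intro v hv
    refine ⟨?_, mem_insd.1 (hCA f hf) v hv⟩
    have h5 := hc v ⟨f, hf, hv⟩
    by_contra h6
    simp only [h6, if_false] at h5
    rw [hc1] at h5
    exact zero_ne_one h5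
  · right
    intro f hf
    rw [mem_insd]
    intro v hv
    have h5 := hc v ⟨f, hf, hv⟩
    have h6 : v ∉ T := by
      intro h6
      simp only [h6, if_true] at h5
      exact hc1 h5.symm
    have h7 := mem_insd.1 (hCA f hf) v hv
    simp only [Set.mem_compl_iff, Set.mem_union, Set.mem_inter_iff]
    tauto

/-- the cut conditions in a minimal counterexample -/
def NoSmall [Fintype E] (ends : E → Sym2 V) (C : Set E) : Prop :=
  ∀ A : Set V, (∀ f ∈ C, f ∈ insd ends A) → (insd ends Aᶜ).Nonempty → 4 ≤ (cut ends A).card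

theorem insd_mono [Fintype E] {ends : E → Sym2 V} {S T : Set V} (h : S ⊆ T) :
    insd ends S ⊆ insd ends T := by
  intro f hf
  rw [mem_insd] at hf ⊢
  exact fun v hv => h (hf v hv)

/-- the two sides of a set which cuts at most one edge of `A` -/
theorem side_bound [Finite V] [Fintype E] {ends : E → Sym2 V} (hG : Good ends)
    {C : Set E} (hC : IsCycle ends C) {A : Set V} (hCA : ∀ f ∈ C, f ∈ insd ends A)
    (hin : (insd ends Aᶜ).Nonempty) (hns : NoSmall ends C) {k : ℕ} {e : Fin k → E}
    {x y : Fin k → V} (hL : Legs ends A e x y) (T : Set V)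
    (h : (cut ends T ∩ insd ends A).card ≤ 1) :
    4 ≤ (cut ends T ∩ insd ends A).card + (univ.filter (fun i => x i ∈ T)).card ∨
    4 ≤ (cut ends T ∩ insd ends A).card + (univ.filter (fun i => x i ∉ T)).card := by
  rcases cycle_side hG.loopless hC hCA T h with h1 | h1
  · left
    rw [← card_cut_inter hL]
    apply hns _ h1
    obtain ⟨f, hf⟩ := hin
    refine ⟨f, insd_mono ?_ hf⟩
    intro v hv h2
    exact hv h2.2
  · right
    rw [← card_cut_union hL, ← cut_compl]
    apply hns _ h1
    obtain ⟨f, hf⟩ := hin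
    refine ⟨f, insd_mono ?_ hf⟩
    rw [compl_compl]
    exact Set.subset_union_right

theorem x_inj [Finite V] [Fintype E] {ends : E → Sym2 V} (hG : Good ends)
    {C : Set E} (hC : IsCycle ends C) {A : Set V} (hCA : ∀ f ∈ C, f ∈ insd ends A)
    (hin : (insd ends Aᶜ).Nonempty) (hns : NoSmall ends C) {e : Fin 4 → E}
    {x y : Fin 4 → V} (hL : Legs ends A e x y) : Function.Injective x := by
  intro i j hij
  by_contra hne
  have key : ∀ T : Set V, (∀ l, x l ∈ T ↔ x l = x i) → (cut ends (T ∩ A)).card = 3 → False := by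
    intro T hT h1
    rw [card_cut_inter hL] at h1
    have h2 : 2 ≤ (univ.filter (fun l => x l ∈ T)).card := by
      have h3 : ({i, j} : Finset (Fin 4)) ⊆ univ.filter (fun l => x l ∈ T) := by
        intro l hl
        simp only [Finset.mem_insert, Finset.mem_singleton] at hl
        simp only [Finset.mem_filter, Finset.mem_univ, true_and]
        rcases hl with rfl | rfl
        · exact (hT _).2 rfl
        · exact (hT _).2 hij.symm
      have h4 := Finset.card_le_card h3
      rwa [Finset.card_pair hne] at h4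
    have h5 : (univ.filter (fun l => x l ∈ T)).card + (univ.filter (fun l => x l ∉ T)).card
        = 4 := by
      rw [Finset.card_filter_add_card_filter_not]
      simp
    rcases side_bound hG hC hCA hin hns hL T (by omega) with h6 | h6 <;> omega
  apply key {x i} _ (dl_end hG hL i)
  intro l
  simp

theorem y_inj [Finite V] [Fintype E] {ends : E → Sym2 V} (hG : Good ends)
    {C : Set E} {A : Set V} (hCA : ∀ f ∈ C, f ∈ insd ends A)
    (hin : 2 ≤ (insd ends Aᶜ).card) (hns : NoSmall ends C) {e : Fin 4 → E}
    {x y : Fin 4 → V} (hL : Legs ends A e x y) : Function.Injective y := by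
  intro i j hij
  by_contra hne
  have hLc := hL.compl
  have key : ∀ T : Set V, (∀ l, y l ∈ T ↔ y l = y i) → (∀ v, v ∈ T ↔ v = y i) →
      (cut ends (T ∩ Aᶜ)).card = 3 → False := by
    intro T hT hT' h1
    have h1' := h1
    rw [card_cut_inter hLc] at h1
    have h2 : 2 ≤ (univ.filter (fun l => y l ∈ T)).card := by
      have h3 : ({i, j} : Finset (Fin 4)) ⊆ univ.filter (fun l => y l ∈ T) := by
        intro l hl
        simp only [Finset.mem_insert, Finset.mem_singleton] at hl
        simp only [Finset.mem_filter, Finset.mem_univ, true_and]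
        rcases hl with rfl | rfl
        · exact (hT _).2 rfl
        · exact (hT _).2 hij.symm
      have h4 := Finset.card_le_card h3
      rwa [Finset.card_pair hne] at h4
    have h5 : (univ.filter (fun l => y l ∈ T)).card + (univ.filter (fun l => y l ∉ T)).card
        = 4 := by
      rw [Finset.card_filter_add_card_filter_not]
      simp
    have h6 := card_cut_union hLc T
    have h7 : 4 ≤ (cut ends ((T ∩ Aᶜ) ∪ Aᶜᶜ)).card := by
      apply hns
      · intro f hf
        refine insd_mono ?_ (hCA f hf)
        rw [compl_compl]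
        exact Set.subset_union_right
      · -- an inside edge avoiding `y i`
        by_contra h8
        rw [Finset.not_nonempty_iff_eq_empty] at h8
        have h9 : insd ends Aᶜ ⊆ cut ends T ∩ insd ends Aᶜ := by
          intro f hf
          rw [Finset.mem_inter]
          refine ⟨?_, hf⟩
          obtain ⟨a, b, hab⟩ := ends_rep ends f
          by_contra h10
          rw [mem_cut_of hab, not_not] at h10
          have h11 : a ∉ T := by
            intro h12
            have h13 := h10.1 h12
            rw [hT'] at h12 h13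
            apply hG.loopless f
            rw [hab, h12, h13]
            exact Sym2.diag_isDiag _
          have h12 : b ∉ T := fun h => h11 (h10.2 h)
          have h13 : f ∈ insd ends ((T ∩ Aᶜ) ∪ Aᶜᶜ)ᶜ := by
            rw [mem_insd_of hab] at hf ⊢
            simp only [Set.mem_compl_iff, Set.mem_union, Set.mem_inter_iff] at hf ⊢
            tauto
          rw [h8] at h13
          simp at h13
        have h10 := Finset.card_le_card h9
        omega
    omega
  apply key {y i} _ _ (dl_end hG hLc i)
  · intro l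
    simp
  · intro v
    simp

/-- the states of two strands -/
def StrandStates [Fintype E] (ends : E → Sym2 V) (Q : Set V) (e : Fin 4 → E) : Prop :=
  ∀ p p' : Fin 5 → ZMod 2, Wt2 p → Wt2 p' → ∃ lab : E → Fin 5 → ZMod 2, Lab ends Q lab ∧
    lab (e 0) = p ∧ lab (e 1) = p ∧ lab (e 2) = p' ∧ lab (e 3) = p'

/-- the states of an H-tree -/
def TreeStates [Fintype E] (ends : E → Sym2 V) (Q : Set V) (e : Fin 4 → E) : Prop :=
  ∀ p : Fin 4 → Fin 5 → ZMod 2, (∀ i, Wt2 (p i)) → p 0 + p 1 + p 2 + p 3 = 0 →
    Wt2 (p 0 + p 1) → ∃ lab : E → Fin 5 → ZMod 2, Lab ends Q lab ∧ ∀ i, lab (e i) = p i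

theorem reduce_strands [Finite V] [Fintype E] {ends : E → Sym2 V} (hG : Good ends)
    (IH : IHyp V E) {C : Set E} (hC : IsCycle ends C) {A : Set V}
    (hCA : ∀ f ∈ C, f ∈ insd ends A) (hin : (insd ends Aᶜ).Nonempty) (hns : NoSmall ends C)
    {e : Fin 4 → E} {x y : Fin 4 → V} (hL : Legs ends A e x y)
    (hst : StrandStates ends Aᶜ e) :
    ∃ lab : E → Fin 5 → ZMod 2, Lab ends Set.univ lab ∧ ∀ f ∈ C, lab f 0 = 1 := by
  have hx := x_inj hG hC hCA hin hns hL
  obtain ⟨l1, μ, h1, h2, h3, h4, -⟩ := gadget hG hL (Γ := Fin 2)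
    (fun j => s((![x 0, x 2] : Fin 2 → V) j, (![x 1, x 3] : Fin 2 → V) j))
    (![0, 0, 1, 1] : Fin 4 → Fin 2) (by
      intro j v hv
      rw [Sym2.mem_iff]
      constructor
      · intro h
        fin_cases j
        · rcases h with rfl | rfl
          · exact ⟨0, rfl, rfl⟩
          · exact ⟨1, rfl, rfl⟩
        · rcases h with rfl | rfl
          · exact ⟨2, rfl, rfl⟩
          · exact ⟨3, rfl, rfl⟩
      · rintro ⟨i, rfl, rfl⟩
        fin_cases i
        · exact Or.inl rfl
        · exact Or.inr rfl
        · exact Or.inl rfl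
        · exact Or.inr rfl) (by
      intro i i' _ h
      exact hx h) (by
      intro j
      fin_cases j
      · intro h
        have := hx (show x 0 = x 1 by simpa using h)
        exact absurd this (by decide)
      · intro h
        have := hx (show x 2 = x 3 by simpa using h)
        exact absurd this (by decide)) (by
      intro v hv
      left
      rw [card_dl_pairs, Fin.sum_univ_two]
      have h0 : ∀ i, v ≠ x i := by
        rintro i rfl
        exact hv (hL.hx i)
      simp [h0]) (by
      intro T h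
      rw [card_cut_pairs, Fin.sum_univ_two] at h
      have h1 := hG.bridge (T ∩ A)
      have h2 := hG.bridge ((T ∩ A) ∪ Aᶜ)
      rw [card_cut_inter hL] at h1
      rw [card_cut_union hL] at h2
      have h3 := side_bound hG hC hCA hin hns hL T (by omega)
      rw [Finset.card_filter, Finset.card_filter, Fin.sum_univ_four, Fin.sum_univ_four] at h3
      rw [Finset.card_filter, Fin.sum_univ_four] at h1 h2
      generalize (cut ends T ∩ insd ends A).card = c at *
      change c + ((if (x 0 ∈ T ↔ x 1 ∈ T) then 0 else 1) + (if (x 2 ∈ T ↔ x 3 ∈ T) then 0 else 1))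
        = 1 at h
      by_cases b0 : x 0 ∈ T <;> by_cases b1 : x 1 ∈ T <;> by_cases b2 : x 2 ∈ T <;>
        by_cases b3 : x 3 ∈ T <;>
        simp only [b0, b1, b2, b3, iff_true, iff_false, not_true_eq_false, not_false_eq_true,
          if_true, if_false] at h h1 h2 h3 <;> omega)
    (by simp only [Fintype.card_fin]; omega) IH C (Or.inl hC) hCA
  obtain ⟨l2, h5, h6, h7, h8, h9⟩ := hst (μ 0) (μ 1) (h4 0) (h4 1)
  obtain ⟨lab, h10, h11⟩ := glue h1 h5 (by
    intro f hf
    obtain ⟨i, rfl⟩ := hL.surj f hf
    rw [h3]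
    fin_cases i
    · exact h6.symm
    · exact h7.symm
    · exact h8.symm
    · exact h9.symm)
  exact ⟨lab, h10, fun f hf => by rw [h11 f (hCA f hf)]; exact h2 f hf⟩

theorem reduce_tree [Finite V] [Fintype E] {ends : E → Sym2 V} (hG : Good ends)
    (IH : IHyp V E) {C : Set E} (hC : IsCycle ends C) {A : Set V}
    (hCA : ∀ f ∈ C, f ∈ insd ends A) (hin : 2 ≤ (insd ends Aᶜ).card) (hns : NoSmall ends C)
    {e : Fin 4 → E} {x y : Fin 4 → V} (hL : Legs ends A e x y)
    (hst : TreeStates ends Aᶜ e) :
    ∃ lab : E → Fin 5 → ZMod 2, Lab ends Set.univ lab ∧ ∀ f ∈ C, lab f 0 = 1 := by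
  have hin' : (insd ends Aᶜ).Nonempty := Finset.card_pos.1 (by omega)
  have hx := x_inj hG hC hCA hin' hns hL
  have hy := y_inj hG hCA hin hns hL
  have hy02 : y 0 ≠ y 2 := fun h => absurd (hy h) (by decide)
  have hxy : ∀ i j, x i ≠ y j := by
    intro i j h
    apply hL.hy j
    rw [← h]
    exact hL.hx i
  obtain ⟨l1, μ, h1, h2, h3, h4, h5⟩ := gadget hG hL (Γ := Fin 5)
    (fun j => s((![x 0, x 1, x 2, x 3, y 0] : Fin 5 → V) j,
      (![y 0, y 0, y 2, y 2, y 2] : Fin 5 → V) j))
    (![0, 1, 2, 3] : Fin 4 → Fin 5) (by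
      intro j v hv
      rw [Sym2.mem_iff]
      have hvy : ∀ i, v ≠ y i := by
        rintro i rfl
        exact hL.hy i hv
      constructor
      · intro h
        fin_cases j
        · rcases h with rfl | h
          · exact ⟨0, rfl, rfl⟩
          · exact absurd h (hvy 0)
        · rcases h with rfl | h
          · exact ⟨1, rfl, rfl⟩
          · exact absurd h (hvy 0)
        · rcases h with rfl | h
          · exact ⟨2, rfl, rfl⟩
          · exact absurd h (hvy 2)
        · rcases h with rfl | h
          · exact ⟨3, rfl, rfl⟩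
          · exact absurd h (hvy 2)
        · rcases h with h | h
          · exact absurd h (hvy 0)
          · exact absurd h (hvy 2)
      · rintro ⟨i, rfl, rfl⟩
        fin_cases i <;> exact Or.inl rfl) (by
      intro i i' _ h
      exact hx h) (by
      intro j
      fin_cases j
      · intro h
        exact hxy 0 0 (by simpa using h)
      · intro h
        exact hxy 1 0 (by simpa using h)
      · intro h
        exact hxy 2 2 (by simpa using h)
      · intro h
        exact hxy 3 2 (by simpa using h)
      · intro h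
        exact hy02 (by simpa using h)) (by
      intro v hv
      rw [card_dl_pairs, Fin.sum_univ_five]
      have h0 : ∀ i, v ≠ x i := by
        rintro i rfl
        exact hv (hL.hx i)
      change ((if (v = x 0 ∨ v = y 0) then 1 else 0) + (if (v = x 1 ∨ v = y 0) then 1 else 0) +
        (if (v = x 2 ∨ v = y 2) then 1 else 0) + (if (v = x 3 ∨ v = y 2) then 1 else 0) +
        (if (v = y 0 ∨ v = y 2) then 1 else 0) = 0) ∨
        ((if (v = x 0 ∨ v = y 0) then 1 else 0) + (if (v = x 1 ∨ v = y 0) then 1 else 0) +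
        (if (v = x 2 ∨ v = y 2) then 1 else 0) + (if (v = x 3 ∨ v = y 2) then 1 else 0) +
        (if (v = y 0 ∨ v = y 2) then 1 else 0) = 3)
      by_cases b0 : v = y 0
      · have b2 : v ≠ y 2 := by rw [b0]; exact hy02
        right
        simp only [h0, b2, eq_true b0, or_true, or_false, if_true, if_false]
      · by_cases b2 : v = y 2
        · right
          simp only [h0, b0, eq_true b2, or_false, or_true, if_true, if_false]
        · left
          simp only [h0, b0, b2, false_or, if_false]) (by
      intro T h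
      rw [card_cut_pairs, Fin.sum_univ_five] at h
      have h1 := hG.bridge (T ∩ A)
      have h2 := hG.bridge ((T ∩ A) ∪ Aᶜ)
      rw [card_cut_inter hL] at h1
      rw [card_cut_union hL] at h2
      have h3 := side_bound hG hC hCA hin' hns hL T (by omega)
      rw [Finset.card_filter, Finset.card_filter, Fin.sum_univ_four, Fin.sum_univ_four] at h3
      rw [Finset.card_filter, Fin.sum_univ_four] at h1 h2
      generalize (cut ends T ∩ insd ends A).card = c at *
      change c + ((if (x 0 ∈ T ↔ y 0 ∈ T) then 0 else 1) + (if (x 1 ∈ T ↔ y 0 ∈ T) then 0 else 1)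
        + (if (x 2 ∈ T ↔ y 2 ∈ T) then 0 else 1) + (if (x 3 ∈ T ↔ y 2 ∈ T) then 0 else 1)
        + (if (y 0 ∈ T ↔ y 2 ∈ T) then 0 else 1)) = 1 at h
      by_cases b0 : x 0 ∈ T <;> by_cases b1 : x 1 ∈ T <;> by_cases b2 : x 2 ∈ T <;>
        by_cases b3 : x 3 ∈ T <;> by_cases t0 : y 0 ∈ T <;> by_cases t2 : y 2 ∈ T <;>
        simp only [b0, b1, b2, b3, t0, t2, iff_true, iff_false, not_true_eq_false,
          not_false_eq_true, if_true, if_false] at h h1 h2 h3 <;> omega)
    (by simp only [Fintype.card_fin]; omega) IH C (Or.inl hC) hCA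
  have h6 := h5 (y 0) (hL.hy 0)
  have h7 := h5 (y 2) (hL.hy 2)
  have h8 : μ 0 + μ 1 + μ 4 = 0 := by
    rw [← h6, bd_dl]
    have : dl (fun j => s((![x 0, x 1, x 2, x 3, y 0] : Fin 5 → V) j,
      (![y 0, y 0, y 2, y 2, y 2] : Fin 5 → V) j)) (y 0) = {0, 1, 4} := by
      ext j
      rw [mem_dl, Sym2.mem_iff]
      have := hxy 2 0
      have := hxy 3 0
      fin_cases j <;> simp [hy02, (hxy _ _).symm]
    rw [this]
    rw [Finset.sum_insert (by decide), Finset.sum_insert (by decide), Finset.sum_singleton,
      add_assoc]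
  have h9 : μ 2 + μ 3 + μ 4 = 0 := by
    rw [← h7, bd_dl]
    have : dl (fun j => s((![x 0, x 1, x 2, x 3, y 0] : Fin 5 → V) j,
      (![y 0, y 0, y 2, y 2, y 2] : Fin 5 → V) j)) (y 2) = {2, 3, 4} := by
      ext j
      rw [mem_dl, Sym2.mem_iff]
      fin_cases j <;> simp [hy02.symm, (hxy _ _).symm]
    rw [this]
    rw [Finset.sum_insert (by decide), Finset.sum_insert (by decide), Finset.sum_singleton,
      add_assoc]
  have h10 : μ 0 + μ 1 = μ 4 := by
    have h := congrArg (fun z => z + μ 4) h8
    simp only [add_assoc, L5_self, add_zero, zero_add] at h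
    exact h
  obtain ⟨l2, h11, h12⟩ := hst (fun i => μ ((![0, 1, 2, 3] : Fin 4 → Fin 5) i))
    (fun i => h4 _) (by
      change μ 0 + μ 1 + μ 2 + μ 3 = 0
      rw [h10, ← h9]
      abel) (by
      change Wt2 (μ 0 + μ 1)
      rw [h10]
      exact h4 4)
  obtain ⟨lab, h13, h14⟩ := glue h1 h11 (by
    intro f hf
    obtain ⟨i, rfl⟩ := hL.surj f hf
    rw [h3, h12])
  exact ⟨lab, h13, fun f hf => by rw [h14 f (hCA f hf)]; exact h2 f hf⟩

end Pool.Agent.Helper50.Outer
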