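import Mathlib
import Pool.Agent.Helper50.Outer.FourCut
import Pool.Agent.Helper50.Outer.Four
import Pool.Agent.Helper37.IE.Inner
import Pool.Agent.Helper37.IE.St.Final5

namespace Pool.Agent.Helper50.Outer

open Finset Pool.Agent.Helper49.CDC
open scoped Classical

universe u v

variable {V : Type v} {E : Type u}

theorem legs_ncard [Fintype E] (ends : E → Sym2 V) (S : Set V) :
    (Pool.Agent.Helper37.IE.Legs ends S).ncard = (cut ends S).card := by
  have h : Pool.Agent.Helper37.IE.Legs ends S = ↑(cut ends S) := by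
    ext e
    rw [Finset.mem_coe, mem_cut]
    rfl
  rw [h, Set.ncard_coe_finset]

theorem cub_of_good [Fintype E] {ends : E → Sym2 V} (h : Good ends) :
    Pool.Agent.Helper37.IE.Cub ends where
  loop := h.loopless
  deg := h.deg
  bridge S := by rw [legs_ncard]; exact h.bridge S

theorem good_of_cub [Fintype E] {ends : E → Sym2 V} (h : Pool.Agent.Helper37.IE.Cub ends) :
    Good ends where
  loopless := h.loop
  deg := h.deg
  bridge S := by rw [← legs_ncard]; exact h.bridge S

theorem sum_deg [Fintype V] [Fintype E] {ends : E → Sym2 V} {S : Set V}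
    (h : ∀ v ∈ S, (dl ends v).card = 3) :
    ∑ v ∈ univ.filter (fun v => v ∈ S), (dl ends v).card = 3 * S.ncard := by
  have h1 : ∀ v ∈ univ.filter (fun v => v ∈ S), (dl ends v).card = 3 := by
    intro v hv
    exact h v (Finset.mem_filter.1 hv).2
  rw [Finset.sum_const_nat h1, mul_comm]
  congr 1
  rw [← Set.ncard_coe_finset]
  congr 1
  ext v
  simp

theorem card_cut_sep [Fintype E] {ends : E → Sym2 V} {S1 S2 : Set V} (hd : Disjoint S1 S2)
    (h : ¬ (Pool.Agent.Helper37.IE.Between ends S1 S2).Nonempty) :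
    (cut ends (S1 ∪ S2)).card = (cut ends S1).card + (cut ends S2).card := by
  have key : ∀ a b : V, ∀ f, ends f = s(a, b) → ¬ ((a ∈ S1 ∧ b ∈ S2) ∨ (b ∈ S1 ∧ a ∈ S2)) := by
    intro a b f hf h1
    apply h
    exact ⟨f, (Pool.Agent.Helper37.IE.mem_between_iff ends S1 S2 f a b hf).2 h1⟩
  have hdd : ∀ a, a ∈ S1 → a ∉ S2 := fun a h1 h2 => Set.disjoint_left.1 hd h1 h2
  rw [← Finset.card_union_of_disjoint]
  · congr 1
    ext f
    obtain ⟨a, b, hf⟩ := ends_rep ends f
    have h1 := key a b f hf
    have h2 := hdd a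
    have h3 := hdd b
    rw [Finset.mem_union, mem_cut_of hf, mem_cut_of hf, mem_cut_of hf]
    simp only [Set.mem_union]
    tauto
  · rw [Finset.disjoint_left]
    intro f h4 h5
    obtain ⟨a, b, hf⟩ := ends_rep ends f
    have h1 := key a b f hf
    have h2 := hdd a
    have h3 := hdd b
    rw [mem_cut_of hf] at h4 h5
    tauto

theorem lab_of_cdc [Fintype E] {ends : E → Sym2 V} {D : Fin 5 → Set E}
    (h : IsFiveCDC ends D) :
    Lab ends Set.univ (fun e i => if e ∈ D i then (1 : ZMod 2) else 0) where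
  bd0 v _ := by
    ext i
    have h1 := h.1 i v
    rw [bd_dl, Finset.sum_apply, ← Finset.sum_filter, Finset.sum_const, nsmul_eq_mul, mul_one,
      Pi.zero_apply, ZMod.natCast_eq_zero_iff_even]
    have h2 : {e | e ∈ D i ∧ v ∈ ends e} = ↑((dl ends v).filter (fun e => e ∈ D i)) := by
      ext e
      rw [Finset.mem_coe, Finset.mem_filter, mem_dl]
      exact and_comm
    rw [h2, Set.ncard_coe_finset] at h1
    exact h1
  wt e v _ _ := by
    obtain ⟨a, b, hab, h1⟩ := Set.ncard_eq_two.1 (h.2 e)
    refine ⟨a, b, hab, ?_⟩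
    intro i
    have h2 : i ∈ {i | e ∈ D i} ↔ i ∈ ({a, b} : Set (Fin 5)) := by rw [h1]
    rw [Set.mem_insert_iff, Set.mem_singleton_iff] at h2
    change (e ∈ D i ↔ i = a ∨ i = b) at h2
    change (if e ∈ D i then (1 : ZMod 2) else 0) = _
    by_cases h3 : i = a ∨ i = b
    · rw [if_pos (h2.2 h3), if_pos h3]
    · rw [if_neg (fun h4 => h3 (h2.1 h4)), if_neg h3]

theorem cdc_of_lab [Fintype E] {ends : E → Sym2 V} {lab : E → Fin 5 → ZMod 2}
    (h : Lab ends Set.univ lab) : IsFiveCDC ends (fun i => {e | lab e i = 1}) := by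
  refine ⟨?_, ?_⟩
  · intro i v
    have h1 := congrFun (h.bd0 v trivial) i
    have h2 : bd ends (fun e => lab e i) v = 0 := by
      rw [bd_dl] at h1 ⊢
      rw [Finset.sum_apply] at h1
      exact h1
    exact even_of_bd ends (fun e => lab e i) v h2
  · intro e
    obtain ⟨a0, b0, hab0⟩ := ends_rep ends e
    obtain ⟨a, b, hab, hr⟩ := h.wt e a0 (by rw [hab0]; simp) trivial
    rw [Set.ncard_eq_two]
    refine ⟨a, b, hab, ?_⟩
    ext i
    rw [Set.mem_insert_iff, Set.mem_singleton_iff]
    change lab e i = 1 ↔ _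
    rw [hr]
    split_ifs with h1
    · simp [h1]
    · simp [h1]

/-- the induction step -/
theorem step [Fintype V] [Fintype E] {ends : E → Sym2 V} (hG : Good ends) (IH : IHyp V E) :
    Q1P ends := by
  intro C hC
  by_contra hno
  have hl := hG.loopless
  have hns : NoSmall ends C := by
    intro A hCA hin
    by_contra h
    exact hno (reduce_small hG IH C hC A hCA (by omega) hin)
  let R : Set V := {v | v ∉ verts ends C ∧ (univ.filter (fun e => v ∈ ends e)).card = 3}
  have hR3 : ∀ S, S ⊆ R → ∀ v ∈ S, (dl ends v).card = 3 := fun S hS v hv => (hS hv).2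
  have hCS : ∀ S, S ⊆ R → ∀ f ∈ C, f ∈ insd ends Sᶜ := by
    intro S hS f hf
    rw [mem_insd]
    intro v hv h
    exact (hS h).1 ⟨f, hf, hv⟩
  -- small cuts
  have h4 : ∀ S, S ⊆ R → 2 ≤ S.ncard → 4 ≤ (cut ends S).card := by
    intro S hS h2
    by_cases hin : (insd ends S).Nonempty
    · have h5 := hns Sᶜ (hCS S hS) (by rwa [compl_compl])
      rwa [cut_compl] at h5
    · rw [Finset.not_nonempty_iff_eq_empty] at hin
      have h5 := handshake hl S
      rw [sum_deg (hR3 S hS), hin, Finset.card_empty] at h5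
      omega
  have h3 : ∀ S, S ⊆ R → S.Nonempty → 3 ≤ (cut ends S).card := by
    intro S hS hne
    by_cases h5 : 2 ≤ S.ncard
    · have := h4 S hS h5
      omega
    · have h6 : S.ncard = 1 := by
        have := (Set.ncard_pos (Set.toFinite S)).2 hne
        omega
      obtain ⟨v, rfl⟩ := Set.ncard_eq_one.1 h6
      rw [cut_singleton hl, hR3 {v} hS v rfl]
  -- cuts with four edges
  have h5 : ∀ n, ∀ S, S.ncard = n → S ⊆ R → 3 ≤ S.ncard → (cut ends S).card ≠ 4 := by
    intro n
    induction n using Nat.strong_induction_on with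
    | _ n ih =>
    intro S hn hS hS3 hS4
    have hsub : ∀ T, T ⊆ S → T ≠ S → 3 ≤ T.ncard → 5 ≤ (cut ends T).card := by
      intro T hT hne hT3
      have h6 := h4 T (hT.trans hS) (by omega)
      have h7 := ih T.ncard (by
        rw [← hn]
        exact Set.ncard_lt_ncard (lt_of_le_of_ne hT hne) (Set.toFinite S)) T rfl (hT.trans hS) hT3
      omega
    have hcub : Pool.Agent.Helper37.IE.CubicOn ends S := fun v hv => hR3 S hS v hv
    have hconn : Pool.Agent.Helper37.IE.Conn ends S := by
      intro T hT hne hneq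
      by_contra h6
      have h7 := card_cut_sep Set.disjoint_sdiff_right h6
      rw [Set.union_sdiff_cancel hT, hS4] at h7
      have h8 := h3 T (hT.trans hS) hne
      have h9 := h3 (S \ T) (Set.sdiff_subset.trans hS) (by
        rw [Set.nonempty_iff_ne_empty]
        intro h10
        rw [Set.sdiff_eq_empty] at h10
        exact hneq (Set.Subset.antisymm hT h10))
      omega
    have hne : S.Nonempty := by
      rw [← Set.ncard_pos (Set.toFinite S)]
      omega
    have hfine := Pool.Agent.Helper37.IE.fine_of_cut ends hl S hne hcub hconn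
      ⟨fun T hT h6 => by rw [legs_ncard]; exact h4 T (hT.trans hS) h6,
        fun T hT h6 h7 => by rw [legs_ncard]; exact hsub T hT h6 h7⟩
    obtain ⟨e, x, y, hL⟩ := exists_legs ends S hS4
    have hin : 2 ≤ (insd ends Sᶜᶜ).card := by
      rw [compl_compl]
      have h6 := handshake hl S
      rw [sum_deg (hR3 S hS)] at h6
      omega
    obtain ⟨s, hs⟩ := four_states hl hL hfine
    have hL' : Legs ends Sᶜ (fun i => e (s i)) (fun i => y (s i)) (fun i => x (s i)) := by
      have hLc := hL.compl
      refine ⟨fun i j hij => s.injective (hL.inj hij), fun i => hLc.hends _, fun i => hLc.hx _,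
        fun i => hLc.hy _, ?_⟩
      intro f hf
      obtain ⟨i, hi⟩ := hLc.surj f hf
      exact ⟨s.symm i, by simpa using hi⟩
    rcases hs with hs | hs
    · exact hno (reduce_strands hG IH hC (hCS S hS) (Finset.card_pos.1 (by omega)) hns hL'
        (by rw [compl_compl]; exact hs))
    · exact hno (reduce_tree hG IH hC (hCS S hS) hin hns hL'
        (by rw [compl_compl]; exact hs))
  have hfm : Pool.Agent.Helper37.IE.FineM ends R := by
    apply Pool.Agent.Helper37.IE.fineM_of_conn ends hl R
    intro K hK hne hconn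
    apply Pool.Agent.Helper37.IE.fine_of_cut ends hl K hne (fun v hv => hR3 K hK v hv) hconn
    refine ⟨fun T hT h6 => by rw [legs_ncard]; exact h4 T (hT.trans hK) h6, ?_⟩
    intro T hT _ h6
    rw [legs_ncard]
    have h7 := h4 T (hT.trans hK) (by omega)
    have h8 := h5 _ T rfl (hT.trans hK) h6
    omega
  obtain ⟨D, hD, hD5⟩ := Pool.Agent.Helper37.IE.fiveCDC_of_fine ends (cub_of_good hG) C hC hfm
  apply hno
  refine ⟨_, lab_of_cdc hD5, ?_⟩
  intro f hf
  simp [hD hf]

theorem main_good [Fintype V] : ∀ (n : ℕ) (E : Type u) [Fintype E] (ends : E → Sym2 V),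
    Fintype.card E = n → Good ends → Q1P ends := by
  intro n
  induction n using Nat.strong_induction_on with
  | _ n ih =>
  intro E _ ends hn hG
  apply step hG
  intro E' _ ends' hlt hG'
  exact ih _ (by omega) E' ends' rfl hG'

/-- every cycle of a finite bridgeless cubic multigraph is contained in a 5-cycle double cover -/
theorem q1 [Fintype V] [Fintype E] (ends : E → Sym2 V) (hc : Pool.Agent.Helper37.IE.Cub ends)
    (C : Set E) (hC : IsCycle ends C) : ∃ D : Fin 5 → Set E, C ⊆ D 0 ∧ IsFiveCDC ends D := by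
  obtain ⟨lab, h1, h2⟩ := main_good _ E ends rfl (good_of_cub hc) C hC
  exact ⟨fun i => {e | lab e i = 1}, fun f hf => h2 f hf, cdc_of_lab h1⟩

end Pool.Agent.Helper50.Outer
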