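import Mathlib
import Pool.Agent.Helper50.Outer.Main

namespace Pool.Agent.Helper50.Outer

open Finset Pool.Agent.Helper49.CDC
open scoped Classical

universe u v

variable {V : Type v} {E : Type u}

theorem cross (R : V → V → Prop) (X : Set V) {a b : V}
    (h : Relation.ReflTransGen R a b) (ha : a ∈ X) (hb : b ∉ X) :
    ∃ x y, R x y ∧ x ∈ X ∧ y ∉ X := by
  induction h with
  | refl => exact absurd ha hb
  | @tail c d _ hbc ih =>
    by_cases hc : c ∈ X
    · exact ⟨c, d, hbc, hc, hb⟩
    · exact ih hc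

/-- every cycle of a finite bridgeless cubic multigraph is contained in a 5-cycle double cover -/
theorem q1_final [Finite V] [Finite E] (ends : E → Sym2 V)
    (hl : ∀ e, ¬ (ends e).IsDiag) (hdeg : ∀ v, {e | v ∈ ends e}.ncard = 3)
    (hb : ∀ e a b, ends e = s(a, b) →
      Relation.ReflTransGen (fun x y => ∃ f, f ≠ e ∧ ends f = s(x, y)) a b)
    (C : Set E) (hC : IsCycle ends C) :
    ∃ D : Fin 5 → Set E, C ⊆ D 0 ∧ IsFiveCDC ends D := by
  have := Fintype.ofFinite V
  have := Fintype.ofFinite E
  apply q1 ends _ C hC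
  apply cub_of_good
  refine ⟨hl, ?_, ?_⟩
  · intro v
    right
    rw [← hdeg v, ← Set.ncard_coe_finset]
    congr 1
    ext e
    rw [Finset.mem_coe, mem_dl]
    rfl
  · intro S h1
    obtain ⟨e, he⟩ := Finset.card_eq_one.1 h1
    have key : ∀ f, f ∈ cut ends S → f = e := by
      intro f hf
      rw [he] at hf
      exact Finset.mem_singleton.1 hf
    have heS : e ∈ cut ends S := by rw [he]; simp
    obtain ⟨⟨a, ha, haS⟩, ⟨b, hb', hbS⟩⟩ := mem_cut.1 heS
    have hab : ends e = s(a, b) := by
      obtain ⟨c, d, hcd⟩ := ends_rep ends e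
      rw [hcd, Sym2.mem_iff] at ha hb'
      rw [hcd]
      rcases ha with rfl | rfl <;> rcases hb' with rfl | rfl
      · exact absurd haS hbS
      · rfl
      · exact Sym2.eq_swap
      · exact absurd haS hbS
    obtain ⟨x, y, ⟨f, hfe, hf⟩, hx, hy⟩ := cross _ S (hb e a b hab) haS hbS
    apply hfe
    apply key
    rw [mem_cut_of hf]
    tauto

end Pool.Agent.Helper50.Outer
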